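import Pool.Agent.Work.MP_7453a1_ch.Suff
import Pool.Agent.Work.MP_7453a1_an.Lp

set_option autoImplicit false

/-!
Norms close to a parallelogram norm do not decrease under a linear map `T` with `T³ = T + 1`; the `l^p` norms (helper85).
-/

namespace Pool.Agent.Work.MP_7453a1_ch

open Pool.GI
open Pool.Agent.Work.MP_7453a1_nt (rho_bounds rho_sq_bounds)
open Pool.Agent.Work.MP_7453a1_nt_norm (IsNorm)
open Pool.Agent.Work.MP_7453a1_an (lpN lpN_apply lp_two)

lemma rho_gt {ρ : ℝ} (hρ : ρ ^ 3 = ρ + 1) : 1.32471 < ρ := by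
  by_contra hcon
  push Not at hcon
  have h2 : 0 < ρ ^ 2 + ρ * 1.32471 + 1.32471 ^ 2 - 1 := by
    nlinarith [sq_nonneg (ρ + 1.32471 / 2)]
  nlinarith [mul_nonneg (sub_nonneg.mpr hcon) h2.le]

/-- no decrease near a parallelogram norm -/
theorem no_dec_par {ρ : ℝ} (hρ : ρ ^ 3 = ρ + 1) {N : Seminorm ℝ V} (hN : IsNorm N) {f g : V →ₗ[ℝ] ℝ}
    {d : ℝ} (hd : d ≤ 1.2246) (h : ∀ x, max |f x| |g x| ≤ N x ∧ N x ≤ d * max |f x| |g x|)
    (T : V →ₗ[ℝ] V) (hT : ∀ x, T (T (T x)) = T x + x) (hdec : ∀ x, N (T x) ≤ N x) : False := by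
  obtain ⟨r1, r2⟩ := rho_bounds hρ
  have r3 := rho_gt hρ
  have hquad := quad_of_lt hρ hN T hT (by linarith : (1 : ℝ) < ρ) (fun x => by rw [one_mul]; exact hdec x)
  obtain ⟨A, hA⟩ := exists_equiv hN f g (fun z h1 h2 => by
    have h3 := (h z).2
    rw [h1, h2, abs_zero, max_self, mul_zero] at h3
    exact le_antisymm h3 (apply_nonneg N z))
  obtain ⟨e1, he1⟩ : ∃ e1, e1 = A.symm 1 := ⟨_, rfl⟩
  obtain ⟨e2, he2⟩ : ∃ e2, e2 = A.symm Complex.I := ⟨_, rfl⟩
  have hA1 : A e1 = 1 := by rw [he1, LinearEquiv.apply_symm_apply]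
  have hA2 : A e2 = Complex.I := by rw [he2, LinearEquiv.apply_symm_apply]
  have f1 : f e1 = 1 := by
    have := congrArg Complex.re ((hA e1).symm.trans hA1)
    simpa using this
  have g1 : g e1 = 0 := by
    have := congrArg Complex.im ((hA e1).symm.trans hA1)
    simpa using this
  have f2 : f e2 = 0 := by
    have := congrArg Complex.re ((hA e2).symm.trans hA2)
    simpa using this
  have g2 : g e2 = 1 := by
    have := congrArg Complex.im ((hA e2).symm.trans hA2)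
    simpa using this
  obtain ⟨a, ha⟩ : ∃ a, a = f (T e1) := ⟨_, rfl⟩
  obtain ⟨c, hc⟩ : ∃ c, c = g (T e1) := ⟨_, rfl⟩
  obtain ⟨b, hb⟩ : ∃ b, b = f (T e2) := ⟨_, rfl⟩
  obtain ⟨e, he⟩ : ∃ e, e = g (T e2) := ⟨_, rfl⟩
  have hTe : T e1 = a • e1 + c • e2 := by
    apply A.injective
    rw [map_add, map_smul, map_smul, hA1, hA2, hA, ← ha, ← hc]
    apply Complex.ext <;> simp
  have q1 : a * a + c * b = -(ρ * a) - (ρ ^ 2 - 1) := by
    have h1 := congrArg f (hquad e1)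
    rw [hTe, map_add, map_smul, map_smul, map_add, map_smul, map_smul, map_sub, map_neg, map_smul, map_smul,
      map_add, map_smul, map_smul, f1, f2, ← ha, ← hb] at h1
    simp only [smul_eq_mul] at h1
    linarith
  have q2 : a * c + c * e = -(ρ * c) := by
    have h1 := congrArg g (hquad e1)
    rw [hTe, map_add, map_smul, map_smul, map_add, map_smul, map_smul, map_sub, map_neg, map_smul, map_smul,
      map_add, map_smul, map_smul, g1, g2, ← hc, ← he] at h1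
    simp only [smul_eq_mul] at h1
    linarith
  have hp : 0 < 3 * ρ ^ 2 - 4 := by nlinarith
  have hc0 : c ≠ 0 := by
    intro h0
    rw [h0] at q1
    nlinarith [sq_nonneg (a + ρ / 2)]
  have q3 : e = -ρ - a := by
    have h1 : c * (a + e + ρ) = 0 := by linarith
    rcases mul_eq_zero.mp h1 with h2 | h2
    · exact absurd h2 hc0
    · linarith
  -- the four bounds
  have key : ∀ s : ℝ, |s| = 1 → |a + s * b| ≤ d ∧ |c + s * e| ≤ d := by
    intro s hs
    have h1 := (h (e1 + s • e2)).2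
    have h2 : f (e1 + s • e2) = 1 := by rw [map_add, map_smul, f1, f2]; simp
    have h3 : g (e1 + s • e2) = s := by rw [map_add, map_smul, g1, g2]; simp
    rw [h2, h3, hs, abs_one, max_self, mul_one] at h1
    have h4 := ((h (T (e1 + s • e2))).1.trans (hdec _)).trans h1
    rw [map_add, map_smul, map_add, map_add, map_smul, map_smul, ← ha, ← hb, ← hc, ← he] at h4
    exact ⟨(le_max_left _ _).trans h4, (le_max_right _ _).trans h4⟩
  obtain ⟨k1, k2⟩ := key 1 (by simp)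
  obtain ⟨k3, k4⟩ := key (-1) (by simp)
  rw [abs_le] at k1 k2 k3 k4
  rw [q3] at k2 k4
  have b1 : |b| ≤ d + a := by rw [abs_le]; constructor <;> linarith [k1.1, k3.1]
  have c1 : |c| ≤ d + (-ρ - a) := by rw [abs_le]; constructor <;> linarith [k2.1, k4.2]
  have h1 : |b| * |c| ≤ (d + a) * (d + (-ρ - a)) :=
    mul_le_mul b1 c1 (abs_nonneg _) ((abs_nonneg _).trans b1)
  have h2 : |b| * |c| = a * a + ρ * a + (ρ ^ 2 - 1) := by
    rw [← abs_mul, abs_of_nonpos]
    · linarith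
    · nlinarith [sq_nonneg (a + ρ / 2)]
  have h3 : 0 ≤ 2 * d - ρ := by linarith [abs_nonneg b, abs_nonneg c]
  have h4 : (2 * d - ρ) ^ 2 ≤ (2 * 1.2246 - ρ) ^ 2 := pow_le_pow_left₀ h3 (by linarith) 2
  nlinarith [sq_nonneg (2 * a + ρ)]

/-- The `l^p` norm is a norm. -/
theorem lp_isNorm (p : ℝ) (hp1 : 1 ≤ p) : IsNorm (lpN p hp1) := by
  intro x hx
  have hp : 0 < p := by linarith
  rw [lpN_apply] at hx
  have h0 : 0 ≤ |x 0| ^ p := by positivity
  have h0' : 0 ≤ |x 1| ^ p := by positivity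
  have hs : |x 0| ^ p + |x 1| ^ p = 0 := by
    rcases (Real.rpow_eq_zero_iff_of_nonneg (by positivity)).1 hx with ⟨h, -⟩
    exact h
  have ha : |x 0| ^ p = 0 := by linarith
  have hb : |x 1| ^ p = 0 := by linarith
  have ha' := (Real.rpow_eq_zero_iff_of_nonneg (abs_nonneg _)).1 ha
  have hb' := (Real.rpow_eq_zero_iff_of_nonneg (abs_nonneg _)).1 hb
  funext i
  fin_cases i
  · simpa using ha'.1
  · simpa using hb'.1

lemma two_rpow_le {e : ℝ} (he : e ≤ 7 / 24) : (2 : ℝ) ^ e ≤ 1.2246 := by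
  have h1 : (2 : ℝ) ^ e ≤ (2 : ℝ) ^ ((7 : ℝ) / 24) :=
    Real.rpow_le_rpow_of_exponent_le (by norm_num) he
  refine h1.trans ?_
  have h2 : ((2 : ℝ) ^ ((7 : ℝ) / 24)) ^ (24 : ℕ) = 128 := by
    rw [← Real.rpow_natCast, ← Real.rpow_mul (by norm_num)]
    norm_num
  by_contra hc
  push Not at hc
  have h3 : (1.2246 : ℝ) ^ 24 ≤ ((2 : ℝ) ^ ((7 : ℝ) / 24)) ^ (24 : ℕ) :=
    pow_le_pow_left₀ (by norm_num) hc.le 24
  rw [h2] at h3
  norm_num at h3

/-- The `l^p` norms with large `p` and those with `p` near `1` are close to a parallelogram norm. -/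
theorem lp_par (p : ℝ) (hp1 : 1 ≤ p) (h : p ≤ 24 / 17 ∨ 24 / 7 ≤ p) :
    ∃ (f g : (Fin 2 → ℝ) →ₗ[ℝ] ℝ) (d : ℝ), d ≤ 1.2246 ∧
      ∀ x, max |f x| |g x| ≤ lpN p hp1 x ∧ lpN p hp1 x ≤ d * max |f x| |g x| := by
  have hp : 0 < p := by linarith
  rcases h with h | h
  · obtain ⟨π₀, hπ₀⟩ : ∃ π₀ : (Fin 2 → ℝ) →ₗ[ℝ] ℝ, ∀ x, π₀ x = x 0 := ⟨LinearMap.proj 0, fun x => rfl⟩
    obtain ⟨π₁, hπ₁⟩ : ∃ π₁ : (Fin 2 → ℝ) →ₗ[ℝ] ℝ, ∀ x, π₁ x = x 1 := ⟨LinearMap.proj 1, fun x => rfl⟩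
    refine ⟨(1.2246 : ℝ)⁻¹ • (π₀ + π₁), (1.2246 : ℝ)⁻¹ • (π₀ - π₁), 1.2246, le_rfl, fun x => ?_⟩
    have e0 : max |x 0 + x 1| |x 0 - x 1| = |x 0| + |x 1| := by
      rcases abs_cases (x 0) with h1 | h1 <;> rcases abs_cases (x 1) with h2 | h2 <;>
        rcases abs_cases (x 0 + x 1) with h3 | h3 <;> rcases abs_cases (x 0 - x 1) with h4 | h4 <;>
        rcases max_cases |x 0 + x 1| |x 0 - x 1| with h5 | h5 <;> linarith [h1.1, h2.1, h3.1, h4.1, h5.1]
    have e1 : max |((1.2246 : ℝ)⁻¹ • (π₀ + π₁)) x| |((1.2246 : ℝ)⁻¹ • (π₀ - π₁)) x| =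
        (1.2246 : ℝ)⁻¹ * (|x 0| + |x 1|) := by
      rw [← e0]
      simp only [LinearMap.smul_apply, LinearMap.add_apply, LinearMap.sub_apply, hπ₀, hπ₁, smul_eq_mul,
        abs_mul, abs_inv]
      rw [mul_max_of_nonneg _ _ (by positivity), abs_of_pos (by norm_num : (0 : ℝ) < 1.2246)]
    rw [e1, lpN_apply]
    obtain ⟨t1, t2⟩ := lp_two hp1 (abs_nonneg (x 0)) (abs_nonneg (x 1))
    have hs0 : 0 ≤ |x 0| ^ p + |x 1| ^ p := by positivity
    constructor
    · rw [inv_mul_le_iff₀ (by norm_num)]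
      have h1 := Real.rpow_le_rpow (by positivity) t2 (by positivity : 0 ≤ 1 / p)
      rw [← Real.rpow_mul (by positivity), mul_one_div_cancel hp.ne', Real.rpow_one,
        Real.mul_rpow (by positivity) hs0, ← Real.rpow_mul (by norm_num)] at h1
      refine h1.trans (mul_le_mul_of_nonneg_right (two_rpow_le ?_) (by positivity))
      have h3 : (p - 1) * (1 / p) = 1 - 1 / p := by field_simp
      rw [h3]
      have h4 : 17 / 24 ≤ 1 / p := by rw [le_div_iff₀ hp]; linarith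
      linarith
    · have h1 := Real.rpow_le_rpow hs0 t1 (by positivity : 0 ≤ 1 / p)
      rw [← Real.rpow_mul (by positivity), mul_one_div_cancel hp.ne', Real.rpow_one] at h1
      have h2 : (1.2246 : ℝ) * ((1.2246 : ℝ)⁻¹ * (|x 0| + |x 1|)) = |x 0| + |x 1| := by
        rw [← mul_assoc, mul_inv_cancel₀ (by norm_num), one_mul]
      rw [h2]
      exact h1
  · refine ⟨LinearMap.proj 0, LinearMap.proj 1, 1.2246, le_rfl, fun x => ?_⟩
    simp only [LinearMap.proj_apply]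
    rw [lpN_apply]
    have hu : ∀ y : ℝ, (|y| ^ p) ^ (1 / p) = |y| := by
      intro y
      rw [← Real.rpow_mul (abs_nonneg _), mul_one_div_cancel hp.ne', Real.rpow_one]
    have h0 : 0 ≤ |x 0| ^ p := by positivity
    have h1 : 0 ≤ |x 1| ^ p := by positivity
    constructor
    · refine max_le ?_ ?_
      · have := Real.rpow_le_rpow h0 (by linarith : |x 0| ^ p ≤ |x 0| ^ p + |x 1| ^ p) (by positivity : 0 ≤ 1 / p)
        rwa [hu] at this
      · have := Real.rpow_le_rpow h1 (by linarith : |x 1| ^ p ≤ |x 0| ^ p + |x 1| ^ p) (by positivity : 0 ≤ 1 / p)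
        rwa [hu] at this
    · obtain ⟨m, hm⟩ : ∃ m, m = max |x 0| |x 1| := ⟨_, rfl⟩
      have hm0 : 0 ≤ m := by rw [hm]; exact le_max_of_le_left (abs_nonneg _)
      have g0 : |x 0| ^ p ≤ m ^ p := Real.rpow_le_rpow (abs_nonneg _) (by rw [hm]; exact le_max_left _ _) hp.le
      have g1 : |x 1| ^ p ≤ m ^ p := Real.rpow_le_rpow (abs_nonneg _) (by rw [hm]; exact le_max_right _ _) hp.le
      have g2 : (|x 0| ^ p + |x 1| ^ p) ^ (1 / p) ≤ (2 * m ^ p) ^ (1 / p) :=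
        Real.rpow_le_rpow (by positivity) (by linarith) (by positivity)
      rw [Real.mul_rpow (by norm_num) (by positivity), ← Real.rpow_mul hm0, mul_one_div_cancel hp.ne',
        Real.rpow_one] at g2
      rw [← hm]
      refine g2.trans (mul_le_mul_of_nonneg_right (two_rpow_le ?_) hm0)
      rw [div_le_iff₀ hp]
      linarith

end Pool.Agent.Work.MP_7453a1_ch
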