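import Pool.Agent.Work.MP_7453a1_ch.Nec
import Pool.Agent.Work.MP_7453a1_ch.Par

set_option autoImplicit false

/-!
The norms with `g = ρ ^ (1/m)` for `m + n = 3` (helper85).
-/

namespace Pool.Agent.Work.MP_7453a1_ch

open Pool.GI (V Up up_near)
open Pool.Agent.Work.MP_7453a1_nt_norm (IsNorm)
open Pool.Agent.Work.MP_7453a1_nt_two (Admissible G g)

/-- a strict decrease is uniform -/
theorem unif_of_strict {N : Seminorm ℝ V} (hN : IsNorm N) (T : V →ₗ[ℝ] V)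
    (h : ∀ x, x ≠ 0 → N (T x) < N x) : ∃ θ : ℝ, θ < 1 ∧ ∀ x, N (T x) ≤ θ * N x := by
  obtain ⟨c, hc, hlow⟩ := Pool.Agent.Work.MP_7453a1_nt_norm.lower hN
  have hcN := cont_norm N
  have hcp : IsCompact {x : V | N x = 1} := by
    refine Metric.isCompact_of_isClosed_isBounded (isClosed_eq hcN continuous_const) ?_
    refine (Metric.isBounded_closedBall (x := (0 : V)) (r := 1 / c)).subset ?_
    intro x hx
    have hx : N x = 1 := hx
    rw [mem_closedBall_zero_iff, le_div_iff₀ hc]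
    have := hlow x
    linarith
  have hpos : ∀ x, x ≠ 0 → 0 < N x := fun x hx =>
    lt_of_le_of_ne (apply_nonneg N x) (fun h0 => hx (hN x h0.symm))
  have hsc : ∀ x, x ≠ 0 → N ((N x)⁻¹ • x) = 1 := by
    intro x hx
    rw [map_smul_eq_mul, norm_inv, Real.norm_eq_abs, abs_of_pos (hpos x hx), inv_mul_cancel₀ (hpos x hx).ne']
  have hne : {x : V | N x = 1}.Nonempty := by
    refine ⟨_, hsc ![1, 0] ?_⟩
    intro h0
    have := congrFun h0 0
    simp at this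
  have hcT : Continuous (fun x => N (T x)) := hcN.comp T.continuous_of_finiteDimensional
  obtain ⟨x₁, hx₁, hmax⟩ := hcp.exists_isMaxOn hne hcT.continuousOn
  have hx₁' : N x₁ = 1 := hx₁
  have h0 : x₁ ≠ 0 := by
    intro h0
    rw [h0, map_zero] at hx₁'
    exact zero_ne_one hx₁'
  refine ⟨N (T x₁), by have := h x₁ h0; rwa [hx₁'] at this, fun x => ?_⟩
  by_cases hx : x = 0
  · rw [hx, map_zero, map_zero, mul_zero]
  · have h1 : N (T ((N x)⁻¹ • x)) ≤ N (T x₁) := hmax (hsc x hx)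
    rw [map_smul, map_smul_eq_mul, norm_inv, Real.norm_eq_abs, abs_of_pos (hpos x hx),
      inv_mul_le_iff₀ (hpos x hx)] at h1
    linarith

/-- the upper bound -/
theorem up_of_strict {ρ : ℝ} (hρ : ρ ^ 3 = ρ + 1) {N : Seminorm ℝ V} (hN : IsNorm N) (T : V →ₗ[ℝ] V)
    (hT : ∀ x, T (T (T x)) = T x + x) (h : ∀ x, x ≠ 0 → N (T x) < N x) : Up ρ 1 N := by
  obtain ⟨θ, h1, h2⟩ := unif_of_strict hN T h
  exact up_of_dec hρ hN T hT h1 h2

/-- near a parallelogram norm both values are larger -/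
theorem gt_par {ρ : ℝ} (hρ : ρ ^ 3 = ρ + 1) {N : Seminorm ℝ V} (hN : IsNorm N) {f g' : V →ₗ[ℝ] ℝ}
    (h : ∀ x, max |f x| |g' x| ≤ N x ∧ N x ≤ 1.2246 * max |f x| |g' x|) {N₁ : Seminorm ℝ (Fin 1 → ℝ)}
    (hN₁ : IsNorm N₁) : ENNReal.ofReal ρ < g N₁ N ∧ ENNReal.ofReal √ρ < g N N₁ := by
  have hρ1 : 1 ≤ ρ := by linarith [rho_gt hρ]
  constructor
  · by_contra hcon
    obtain ⟨T, h1, h2⟩ := nec_one hρ hρ1 hN hN₁ (not_lt.mp hcon)
    exact no_dec_par hρ hN le_rfl h T h1 h2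
  · by_contra hcon
    obtain ⟨T, h1, h2⟩ := nec_two hρ hρ1 hN hN₁ (not_lt.mp hcon)
    exact no_dec_par hρ hN le_rfl h T h1 h2

end Pool.Agent.Work.MP_7453a1_ch
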