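import Pool.Agent.Work.MP_7453a1_gi.Interface

set_option autoImplicit false

/-! # The nine lattice points (helper85) -/

namespace Pool.Agent.Work.MP_7453a1_ch

open Finset Real
open Pool.Agent.Work.MP_7453a1_nt

lemma sml_bound {ρ : ℝ} (hρ : ρ ^ 3 = ρ + 1) (X Y Z : ℤ) (hL : |L ρ X Y Z| ≤ 1.02)
    (hQ : Q ρ X Y Z ≤ 2.42) : (-3 < Z ∧ Z < 3) ∧ (-6 < Y ∧ Y < 6) ∧ (-6 < X ∧ X < 6) := by
  obtain ⟨r1, r2⟩ := rho_bounds hρ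
  obtain ⟨s1, s2⟩ := rho_sq_bounds hρ
  have hsq := Q_sq hρ X Y Z
  set P : ℝ := Y - ρ * Z with hP
  set T : ℝ := 2 * X - ρ * Y + (2 - ρ ^ 2) * Z with hT
  have hP0 : 0 ≤ P ^ 2 := sq_nonneg P
  have hT0 : 0 ≤ T ^ 2 := sq_nonneg T
  have hP2 : P ^ 2 < 2.77 ^ 2 := by
    have h1 : 1.264 * P ^ 2 ≤ (3 * ρ ^ 2 - 4) * P ^ 2 :=
      mul_le_mul_of_nonneg_right (by linarith) hP0
    linarith
  have hT2 : T ^ 2 < 3.12 ^ 2 := by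
    have h1 : 0 ≤ (3 * ρ ^ 2 - 4) * P ^ 2 := mul_nonneg (by linarith) hP0
    linarith
  obtain ⟨p1, p2⟩ := abs_lt_of_sq_lt_sq' hP2 (by norm_num)
  obtain ⟨q1, q2⟩ := abs_lt_of_sq_lt_sq' hT2 (by norm_num)
  rw [abs_le] at hL
  obtain ⟨l1, l2⟩ := hL
  have hLT : 2 * L ρ X Y Z - T = 3 * (ρ * P) + (6 * ρ ^ 2 - 2) * Z := by
    rw [hP, hT]; unfold L; ring
  obtain ⟨a1, a2⟩ := mul_bd (r := ρ) (M := 1.3248) (by linarith) r2.le p1.le p2.le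
  have hZ1 : (Z : ℝ) < 3 := by
    by_contra hcon
    push Not at hcon
    have : 8.5 * 3 ≤ (6 * ρ ^ 2 - 2) * Z :=
      mul_le_mul (by linarith) hcon (by norm_num) (by linarith)
    linarith
  have hZ2 : (-3 : ℝ) < Z := by
    by_contra hcon
    push Not at hcon
    have : 8.5 * 3 ≤ (6 * ρ ^ 2 - 2) * (-Z) :=
      mul_le_mul (by linarith) (by linarith) (by norm_num) (by linarith)
    linarith
  have hZ1' : Z < 3 := by exact_mod_cast hZ1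
  have hZ2' : -3 < Z := by exact_mod_cast hZ2
  have hZ3 : (Z : ℝ) ≤ 2 := by exact_mod_cast (by omega : Z ≤ 2)
  have hZ4 : (-2 : ℝ) ≤ Z := by exact_mod_cast (by omega : -2 ≤ Z)
  obtain ⟨b1, b2⟩ := mul_bd (r := ρ) (M := 1.3248) (by linarith) r2.le hZ4 hZ3
  have hY1 : (Y : ℝ) < 6 := by linarith
  have hY2 : (-6 : ℝ) < Y := by linarith
  have hY1' : Y < 6 := by exact_mod_cast hY1
  have hY2' : -6 < Y := by exact_mod_cast hY2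
  have hY3 : (Y : ℝ) ≤ 5 := by exact_mod_cast (by omega : Y ≤ 5)
  have hY4 : (-5 : ℝ) ≤ Y := by exact_mod_cast (by omega : -5 ≤ Y)
  obtain ⟨c1, c2⟩ := mul_bd (r := ρ) (M := 1.3248) (by linarith) r2.le hY4 hY3
  obtain ⟨d1, d2⟩ := mul_bd (r := 2 - ρ ^ 2) (M := 0.2452) (by linarith) (by linarith) hZ4 hZ3
  have hX1 : (X : ℝ) < 6 := by linarith
  have hX2 : (-6 : ℝ) < X := by linarith
  have hX1' : X < 6 := by exact_mod_cast hX1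
  have hX2' : -6 < X := by exact_mod_cast hX2
  exact ⟨⟨hZ2', hZ1'⟩, ⟨hY2', hY1'⟩, hX2', hX1'⟩

set_option maxHeartbeats 4000000 in
theorem sml {ρ : ℝ} (hρ : ρ ^ 3 = ρ + 1) (X Y Z : ℤ) (hL : |L ρ X Y Z| ≤ 1.02)
    (hQ : Q ρ X Y Z ≤ 2.42) :
    (X, Y, Z) = (0, 0, 0) ∨ (X, Y, Z) = (1, 0, 0) ∨ (X, Y, Z) = (-1, 0, 0) ∨
    (X, Y, Z) = (-1, 0, 1) ∨ (X, Y, Z) = (1, 0, -1) ∨ (X, Y, Z) = (1, 1, -1) ∨
    (X, Y, Z) = (-1, -1, 1) ∨ (X, Y, Z) = (0, -1, 1) ∨ (X, Y, Z) = (0, 1, -1) := by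
  obtain ⟨r1, r2⟩ := rho_bounds hρ
  obtain ⟨s1, s2⟩ := rho_sq_bounds hρ
  obtain ⟨⟨z1, z2⟩, ⟨y1, y2⟩, x1, x2⟩ := sml_bound hρ X Y Z hL hQ
  rw [abs_le] at hL
  obtain ⟨l1, l2⟩ := hL
  unfold L at l1 l2
  unfold Q at hQ
  clear hρ
  generalize ρ ^ 2 = s at *
  interval_cases Z <;> interval_cases Y <;> norm_num at l1 l2 hQ <;> interval_cases X <;>
    first
    | (exfalso; push_cast at l1 l2; linarith)
    | (exfalso; push_cast at l1 l2 hQ; linarith)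
    | simp

end Pool.Agent.Work.MP_7453a1_ch
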