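import Pool.Agent.Work.MP_7453a1_gi.All
import Pool.Agent.Work.MP_7453a1_ch.Sml

set_option autoImplicit false

/-! # Norms with `n (lam ζ) ≤ n ζ`: the nine lattice points, the chain, the comparison with the Euclidean norm (helper85) -/

namespace Pool.Agent.Work.MP_7453a1_ch

open Finset Real
open Pool.GI
open Pool.Agent.Work.MP_7453a1_nt
open Pool.Agent.Work.MP_7453a1_nt_sym.UPAux (LL)

/-- between the Euclidean norm divided by `√2.39` and the Euclidean norm -/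
def Tw (n : Seminorm ℝ ℂ) : Prop := ∀ ζ : ℂ, n ζ ≤ ‖ζ‖ ∧ ‖ζ‖ ^ 2 ≤ 2.39 * n ζ ^ 2

theorem chn {ρ : ℝ} (hρ : ρ ^ 3 = ρ + 1) (n : Seminorm ℝ ℂ) (hTw : Tw n)
    (hdec : ∀ ζ, n (lam ρ * ζ) ≤ n ζ) (δ : ℝ) (hδ : 0 < δ) (hδ1 : δ ≤ 1 / 100) (ζ : ℂ) (hζ : ζ ≠ 0)
    (hGood : Good n ρ δ ζ) (v : ℤ × ℤ × ℤ) (hL : |LL ρ v| ≤ 1.02)
    (hn : n (ζ * Ec ρ v) ≤ (1 + δ / 2) * n ζ) : v = 0 ∨ v = (1, 0, 0) ∨ v = -(1, 0, 0) := by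
  obtain ⟨hl3, hl0, -, -, -, hQ, hE1, hE2⟩ := q_LMB ρ hρ
  obtain ⟨hg1, hg2⟩ := hGood
  have hnn : 0 ≤ n ζ := apply_nonneg n ζ
  have hzpos : 0 < ‖ζ‖ := norm_pos_iff.mpr hζ
  have hpos : 0 < n ζ := by
    rcases eq_or_lt_of_le hnn with h | h
    · exfalso
      have h1 := (hTw ζ).2
      rw [← h] at h1
      have h2 : 0 < ‖ζ‖ ^ 2 := by positivity
      linarith
    · exact h
  have hg3 : (1 + δ) * n ζ ≤ n (ζ / lam ρ ^ 3) := by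
    have h1 := hdec (ζ / lam ρ ^ 3)
    have h2 : lam ρ * (ζ / lam ρ ^ 3) = ζ / lam ρ ^ 2 := by
      field_simp
    rw [h2] at h1
    exact hg2.trans h1
  have hQle : Q ρ v.1 v.2.1 v.2.2 ≤ 2.42 := by
    rw [← hQ v]
    have h1 := (hTw (ζ * Ec ρ v)).2
    have h2 : n (ζ * Ec ρ v) ^ 2 ≤ ((1 + δ / 2) * n ζ) ^ 2 :=
      pow_le_pow_left₀ (apply_nonneg n _) hn 2
    have h3 : n ζ ^ 2 ≤ ‖ζ‖ ^ 2 := pow_le_pow_left₀ hnn (hTw ζ).1 2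
    have h4 : (1 + δ / 2) ^ 2 ≤ 1.0101 := by nlinarith
    have h5 : ((1 + δ / 2) * n ζ) ^ 2 ≤ 1.0101 * ‖ζ‖ ^ 2 := by
      rw [mul_pow]
      exact mul_le_mul h4 h3 (sq_nonneg _) (by norm_num)
    rw [norm_mul, mul_pow] at h1
    have h6 : ‖ζ‖ ^ 2 * ‖Ec ρ v‖ ^ 2 ≤ ‖ζ‖ ^ 2 * 2.42 := by nlinarith [sq_nonneg ‖ζ‖]
    exact le_of_mul_le_mul_left h6 (by positivity)
  have hcases := sml hρ v.1 v.2.1 v.2.2 hL hQle
  have hv : v = (v.1, v.2.1, v.2.2) := rfl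
  have e1 : Ec ρ (1, 0, -1) = -(lam ρ)⁻¹ := by
    rw [← hE1, ← CHN_neg]
    rfl
  have e2 : Ec ρ (-1, -1, 1) = -(lam ρ ^ 2)⁻¹ := by
    rw [← hE2, ← CHN_neg]
    rfl
  have e3 : Ec ρ (0, -1, 1) = (lam ρ ^ 3)⁻¹ := by
    refine eq_inv_of_mul_eq_one_left ?_
    simp only [Ec]
    push_cast
    linear_combination (lam ρ ^ 2 - lam ρ + 1) * hl3
  have e4 : Ec ρ (0, 1, -1) = -(lam ρ ^ 3)⁻¹ := by
    rw [← e3, ← CHN_neg]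
    rfl
  rw [← hv] at hcases
  rcases hcases with h | h | h | h | h | h | h | h | h
  · exact Or.inl h
  · exact Or.inr (Or.inl h)
  · exact Or.inr (Or.inr h)
  · rw [h, hE1] at hn
    exact (CHN_excl n δ hδ ζ (lam ρ) _ hpos hg1 (Or.inl rfl) hn).elim
  · rw [h, e1] at hn
    exact (CHN_excl n δ hδ ζ (lam ρ) _ hpos hg1 (Or.inr rfl) hn).elim
  · rw [h, hE2] at hn
    exact (CHN_excl n δ hδ ζ (lam ρ ^ 2) _ hpos hg2 (Or.inl rfl) hn).elim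
  · rw [h, e2] at hn
    exact (CHN_excl n δ hδ ζ (lam ρ ^ 2) _ hpos hg2 (Or.inr rfl) hn).elim
  · rw [h, e3] at hn
    exact (CHN_excl n δ hδ ζ (lam ρ ^ 3) _ hpos hg3 (Or.inl rfl) hn).elim
  · rw [h, e4] at hn
    exact (CHN_excl n δ hδ ζ (lam ρ ^ 3) _ hpos hg3 (Or.inr rfl) hn).elim


lemma key_pos {ρ x h m : ℝ} (hρ : ρ ^ 3 = ρ + 1) (r1 : 1 < ρ) (r3 : 0 < ρ ^ 2 - 1) (hx : 0 ≤ x) (hh : 0 ≤ h)
    (h1 : x ≤ m) (h2 : h ≤ m) (h3 : ρ * h - (1 + ρ - ρ ^ 2) * x ≤ m) :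
    (ρ ^ 2 - 1) * x ^ 2 + ρ * x * (h - x) + (h - x) ^ 2 ≤ (ρ ^ 2 - 1) * m ^ 2 := by
  have e : (ρ ^ 2 - 1) * m ^ 2 - ((ρ ^ 2 - 1) * x ^ 2 + ρ * x * (h - x) + (h - x) ^ 2) =
      (ρ ^ 2 - 1) * ((m - x) * (m - (ρ * h - (1 + ρ - ρ ^ 2) * x))) + (m - h) * (h + (ρ - 1) * x) := by
    linear_combination (m * h - x * h - (1 - ρ) * (m * x - x ^ 2)) * hρ
  have e1 : 0 ≤ (ρ ^ 2 - 1) * ((m - x) * (m - (ρ * h - (1 + ρ - ρ ^ 2) * x))) :=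
    mul_nonneg r3.le (mul_nonneg (by linarith) (by linarith))
  have e2 : 0 ≤ (m - h) * (h + (ρ - 1) * x) :=
    mul_nonneg (by linarith) (add_nonneg hh (mul_nonneg (by linarith) hx))
  linarith

lemma key_neg {ρ x b m : ℝ} (hρ : ρ ^ 3 = ρ + 1) (r1 : 1 < ρ) (r3 : 0 < ρ ^ 2 - 1) (hx : 0 ≤ x) (hb : 0 ≤ b)
    (hm : 0 ≤ m) (h1 : x + b ≤ m) (h3 : ρ * b + (1 + ρ - ρ ^ 2) * x ≤ m) :
    (ρ ^ 2 - 1) * x ^ 2 + ρ * x * (-b - x) + (-b - x) ^ 2 ≤ (ρ ^ 2 - 1) * m ^ 2 := by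
  have e : (ρ ^ 2 - 1) * m ^ 2 - ((ρ ^ 2 - 1) * x ^ 2 + ρ * x * (-b - x) + (-b - x) ^ 2) =
      (ρ ^ 2 - 1) * (m * (m - (ρ * b + (1 + ρ - ρ ^ 2) * x))) + (m - (x + b)) * (b + (ρ ^ 2 - ρ) * x) +
        (ρ ^ 2 - 1) * (x * b) := by
    linear_combination (m * b + (1 - ρ) * m * x) * hρ
  have e1 : 0 ≤ (ρ ^ 2 - 1) * (m * (m - (ρ * b + (1 + ρ - ρ ^ 2) * x))) :=
    mul_nonneg r3.le (mul_nonneg hm (by linarith))
  have e2 : 0 ≤ (m - (x + b)) * (b + (ρ ^ 2 - ρ) * x) :=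
    mul_nonneg (by linarith) (add_nonneg hb (mul_nonneg (by nlinarith) hx))
  have e3 : 0 ≤ (ρ ^ 2 - 1) * (x * b) := mul_nonneg r3.le (mul_nonneg hx hb)
  linarith

lemma key_half {ρ x f m : ℝ} (hρ : ρ ^ 3 = ρ + 1) (r1 : 1 < ρ) (r3 : 0 < ρ ^ 2 - 1) (hx : 0 ≤ x)
    (hm : 0 ≤ m) (h0 : x ≤ m) (h1 : -m ≤ f) (h2 : |(-ρ * f - (ρ ^ 2 - 1) * x)| ≤ m) (h3 : f + x ≤ m) :
    (ρ ^ 2 - 1) * x ^ 2 + ρ * x * f + f ^ 2 ≤ (ρ ^ 2 - 1) * m ^ 2 := by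
  rw [abs_le] at h2
  rcases le_total 0 (f + x) with h | h
  · have e : f = f + x - x := by ring
    have := key_pos hρ r1 r3 hx h h0 h3 (by linarith : ρ * (f + x) - (1 + ρ - ρ ^ 2) * x ≤ m)
    rwa [← e] at this
  · have e : f = -(-(f + x)) - x := by ring
    have := key_neg (b := -(f + x)) hρ r1 r3 hx (by linarith) hm (by linarith)
      (by linarith : ρ * (-(f + x)) + (1 + ρ - ρ ^ 2) * x ≤ m)
    rwa [← e] at this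

lemma key {ρ x f m : ℝ} (hρ : ρ ^ 3 = ρ + 1) (r1 : 1 < ρ) (r3 : 0 < ρ ^ 2 - 1) (hm : 0 ≤ m)
    (h0 : |x| ≤ m) (h1 : |f| ≤ m) (h2 : |(-ρ * f - (ρ ^ 2 - 1) * x)| ≤ m) (h3 : |f + x| ≤ m) :
    (ρ ^ 2 - 1) * x ^ 2 + ρ * x * f + f ^ 2 ≤ (ρ ^ 2 - 1) * m ^ 2 := by
  rw [abs_le] at h0 h1 h3
  rcases le_total 0 x with hx | hx
  · exact key_half hρ r1 r3 hx hm h0.2 h1.1 h2 h3.2
  · have h4 : |(-ρ * -f - (ρ ^ 2 - 1) * -x)| ≤ m := by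
      rw [← abs_neg]
      have e : -(-ρ * -f - (ρ ^ 2 - 1) * -x) = -ρ * f - (ρ ^ 2 - 1) * x := by ring
      rwa [e]
    have := key_half (x := -x) (f := -f) hρ r1 r3 (by linarith) hm (by linarith) (by linarith) h4 (by linarith)
    linarith

/-- `f k = Re (conj u * lam ^ k * w)`: for a unit vector `u` with `n u = 1` this is at most `n w` in absolute value -/
theorem tw_of_touch {ρ : ℝ} (hρ : ρ ^ 3 = ρ + 1) (n : Seminorm ℝ ℂ) (hle : ∀ ζ, n ζ ≤ ‖ζ‖)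
    (hdec : ∀ ζ, n (lam ρ * ζ) ≤ n ζ) (u : ℂ) (hu : ‖u‖ = 1) (hnu : n u = 1) : Tw n := by
  intro w
  refine ⟨hle w, ?_⟩
  obtain ⟨r1, r2⟩ := rho_bounds hρ
  obtain ⟨s1, s2⟩ := rho_sq_bounds hρ
  obtain ⟨t0, t1⟩ := LMB_s hρ
  obtain ⟨-, -, -, -, hsq, -⟩ := q_LMB ρ hρ
  have h1 := hdec w
  have h2 := hdec (lam ρ * w)
  have h3 := hdec (lam ρ * (lam ρ * w))
  have hb : ∀ ζ, |Sc u ζ| ≤ n ζ := q_SPT n hle u hu hnu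
  have hn0 := hb w
  have hn1 := (hb (lam ρ * w)).trans h1
  have hn2 := (hb (lam ρ * (lam ρ * w))).trans (h2.trans h1)
  have hn3 := (hb (lam ρ * (lam ρ * (lam ρ * w)))).trans (h3.trans (h2.trans h1))
  have hre : (lam ρ).re = -ρ / 2 := rfl
  have him : (lam ρ).im = √(3 * ρ ^ 2 - 4) / 2 := rfl
  set s : ℝ := √(3 * ρ ^ 2 - 4) with hs
  set m : ℝ := n w with hm
  have hu2 : u.re ^ 2 + u.im ^ 2 = 1 := by
    have := Complex.sq_norm u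
    rw [hu, Complex.normSq_apply] at this
    linarith
  -- coordinates with respect to `u`
  obtain ⟨x, hx⟩ : ∃ x : ℝ, x = u.re * w.re + u.im * w.im := ⟨_, rfl⟩
  obtain ⟨y, hy⟩ : ∃ y : ℝ, y = u.re * w.im - u.im * w.re := ⟨_, rfl⟩
  have hw2 : ‖w‖ ^ 2 = x ^ 2 + y ^ 2 := by
    rw [Complex.sq_norm, Complex.normSq_apply, hx, hy]
    have : (u.re * w.re + u.im * w.im) ^ 2 + (u.re * w.im - u.im * w.re) ^ 2 =
      (u.re ^ 2 + u.im ^ 2) * (w.re * w.re + w.im * w.im) := by ring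
    rw [this, hu2, one_mul]
  have g0 : Sc u w = x := by
    rw [hx]; rfl
  have g1 : Sc u (lam ρ * w) = -ρ / 2 * x - s / 2 * y := by
    unfold Sc
    rw [Complex.mul_re, Complex.mul_im, hre, him, hx, hy]
    ring
  obtain ⟨f, hf⟩ : ∃ f : ℝ, f = Sc u (lam ρ * w) := ⟨_, rfl⟩
  have g2 : Sc u (lam ρ * (lam ρ * w)) = -ρ * f - (ρ ^ 2 - 1) * x := by
    have e : lam ρ * (lam ρ * w) = (-ρ : ℝ) * (lam ρ * w) - ((ρ ^ 2 - 1 : ℝ) : ℂ) * w := by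
      have : lam ρ * (lam ρ * w) = lam ρ ^ 2 * w := by ring
      rw [this, hsq]
      push_cast
      ring
    rw [e, hf, ← g0]
    unfold Sc
    simp only [Complex.sub_re, Complex.sub_im, Complex.re_ofReal_mul, Complex.im_ofReal_mul]
    ring
  have g3 : Sc u (lam ρ * (lam ρ * (lam ρ * w))) = f + x := by
    have e : lam ρ * (lam ρ * (lam ρ * w)) = lam ρ * w + w := by
      have : lam ρ * (lam ρ * (lam ρ * w)) = lam ρ ^ 3 * w := by ring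
      rw [this, (q_LMB ρ hρ).1]
      ring
    rw [e, hf, ← g0]
    unfold Sc
    simp only [Complex.add_re, Complex.add_im]
    ring
  rw [g0] at hn0
  rw [← hf] at hn1 g1
  rw [g2] at hn2
  rw [g3] at hn3
  have hm0 : 0 ≤ m := apply_nonneg n w
  rw [hw2]
  -- `(3 ρ² - 4) (x² + y²) = 4 ((ρ² - 1) x² + ρ x f + f²)`
  have hq : (3 * ρ ^ 2 - 4) * (x ^ 2 + y ^ 2) = 4 * ((ρ ^ 2 - 1) * x ^ 2 + ρ * x * f + f ^ 2) := by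
    have e1 : s * y = -ρ * x - 2 * f := by rw [g1]; ring
    have e2 : (s * s) * y ^ 2 = (-ρ * x - 2 * f) ^ 2 := by rw [← e1]; ring
    rw [t1] at e2
    linear_combination e2
  have hk := key hρ (by linarith) (by linarith) hm0 hn0 hn1 hn2 hn3
  have hp : 0 < 3 * ρ ^ 2 - 4 := by linarith
  have h5 : (3 * ρ ^ 2 - 4) * (x ^ 2 + y ^ 2) ≤ (3 * ρ ^ 2 - 4) * (2.39 * m ^ 2) := by
    rw [hq]
    have h6 : 0 ≤ m ^ 2 := sq_nonneg m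
    have h7 : 4 * (ρ ^ 2 - 1) * m ^ 2 ≤ 2.39 * (3 * ρ ^ 2 - 4) * m ^ 2 :=
      mul_le_mul_of_nonneg_right (by linarith) h6
    linarith
  exact le_of_mul_le_mul_left h5 hp

end Pool.Agent.Work.MP_7453a1_ch
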