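import Pool.Agent.Work.MP_7453a1_ch.Run

set_option autoImplicit false

/-!
`g = ρ` gives arbitrarily long runs of the special move (helper85).
-/

namespace Pool.Agent.Work.MP_7453a1_ch

open Pool.Agent.Work.MP_7453a1_nt_norm (IsNorm IsBestDenominator Pt er ev)
open Pool.Agent.Work.MP_7453a1_nt_sym (IsFrame2)
open Pool.Agent.Work.MP_7453a1_nt_two (Admissible G g M col adm12 M12 N1_pos)
open Pool.Agent.Work.MP_7453a1_an (next forb_no tabOK)
open Filter Topology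
open scoped ENNReal

variable {N : Seminorm ℝ (Fin 2 → ℝ)} {N₁ : Seminorm ℝ (Fin 1 → ℝ)} {Θ : Matrix (Fin 2) (Fin 1) ℝ}

/-- The lower bound for `m = 1` from the growth of one frame (after `low12`). -/
theorem low12_of (hN : IsNorm N) (hN₁ : IsNorm N₁) (hΘ : Admissible Θ) {t c : ℝ} (ht : 1 ≤ t)
    (hc : 0 < c) {ν₀ : ℕ} {z : ℕ → Pt 2}
    (h1 : ∀ k, (z k).1 = Pool.Agent.Work.MP_7453a1_nt_norm.M N (col Θ) (ν₀ + k))
    (hz : IsFrame2 N (col Θ) z) (hUG : ∀ k, c * t ^ k * ((z 0).1 : ℝ) ≤ ((z k).1 : ℝ)) :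
    ENNReal.ofReal t ≤ G N₁ N Θ := by
  have ht0 : 0 < t := by linarith
  have hk := N1_pos hN₁
  have hMz : ∀ j, 1 ≤ j → (1 : ℝ) ≤ (Pool.Agent.Work.MP_7453a1_nt_norm.M N (col Θ) j : ℝ) := by
    intro j hj
    have hinf := Pool.Agent.Work.MP_7453a1_nt_norm.infinite hN (adm12.mp hΘ)
    obtain ⟨q, y, h, hq⟩ := Nat.nth_mem_of_infinite hinf (j - 1)
    have h2 := h.1
    have : 1 ≤ Pool.Agent.Work.MP_7453a1_nt_norm.M N (col Θ) j := by
      have h3 := Int.natAbs_pos.mpr h2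
      rw [hq] at h3
      exact h3
    exact_mod_cast this
  set κ := N₁ (fun _ => 1) with hκ
  set c1 : ℝ := min (c * κ / t ^ ν₀) (κ / t ^ ν₀) with hc1
  have hc1' : 0 < c1 := lt_min (by positivity) (by positivity)
  have key : ∀ ν, 1 ≤ ν → c1 * t ^ ν ≤ M N₁ N Θ ν := by
    intro ν hν
    obtain ⟨j, rfl⟩ : ∃ j, ν = j + 1 := ⟨ν - 1, by omega⟩
    rw [M12 hN hN₁ hΘ]
    rcases Nat.lt_or_ge (j + 1) ν₀ with h2 | h2
    · have h3 : t ^ (j + 1) ≤ t ^ ν₀ := pow_le_pow_right₀ ht h2.le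
      have h4 : c1 * t ^ (j + 1) ≤ κ / t ^ ν₀ * t ^ ν₀ :=
        mul_le_mul (min_le_right _ _) h3 (by positivity) (by positivity)
      have h5 : κ / t ^ ν₀ * t ^ ν₀ = κ := by field_simp
      have h6 := mul_le_mul_of_nonneg_right (hMz (j + 1) hν) hk.le
      linarith
    · obtain ⟨k, hk1⟩ : ∃ k, j + 1 = ν₀ + k := ⟨j + 1 - ν₀, by omega⟩
      have h3 := hUG k
      have h4 : ((z k).1 : ℝ) = (Pool.Agent.Work.MP_7453a1_nt_norm.M N (col Θ) (ν₀ + k) : ℝ) := by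
        rw [h1 k]; simp
      have h5 : (1 : ℝ) ≤ ((z 0).1 : ℝ) := by exact_mod_cast hz.pos 0
      rw [h4] at h3
      rw [hk1, pow_add]
      have h6 : c1 * (t ^ ν₀ * t ^ k) ≤ c * κ / t ^ ν₀ * (t ^ ν₀ * t ^ k) :=
        mul_le_mul_of_nonneg_right (min_le_left _ _) (by positivity)
      have h7 : c * κ / t ^ ν₀ * (t ^ ν₀ * t ^ k) = c * t ^ k * κ := by field_simp
      have h8 : c * t ^ k * 1 ≤ c * t ^ k * ((z 0).1 : ℝ) :=
        mul_le_mul_of_nonneg_left h5 (by positivity)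
      have h9 : c * t ^ k * κ ≤ (Pool.Agent.Work.MP_7453a1_nt_norm.M N (col Θ) (ν₀ + k) : ℝ) * κ :=
        mul_le_mul_of_nonneg_right (by linarith) hk.le
      linarith
  have hlim : Tendsto (fun ν : ℕ => ENNReal.ofReal (c1 ^ (1 / (ν : ℝ)) * t)) atTop
      (𝓝 (ENNReal.ofReal t)) := by
    apply ENNReal.tendsto_ofReal
    have h1 : Tendsto (fun ν : ℕ => c1 ^ (1 / (ν : ℝ))) atTop (𝓝 (c1 ^ (0 : ℝ))) := by
      apply Tendsto.rpow tendsto_const_nhds tendsto_one_div_atTop_nhds_zero_nat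
      left
      positivity
    rw [Real.rpow_zero] at h1
    simpa using h1.mul_const t
  rw [← hlim.liminf_eq]
  unfold G
  refine liminf_le_liminf ?_
  filter_upwards [eventually_ge_atTop 1] with ν hν
  apply ENNReal.ofReal_le_ofReal
  calc c1 ^ (1 / (ν : ℝ)) * t = (c1 * t ^ ν) ^ (1 / (ν : ℝ)) := by
        rw [Real.mul_rpow (by positivity) (by positivity)]
        congr 1
        rw [one_div, Real.pow_rpow_inv_natCast ht0.le (by omega)]
    _ ≤ (M N₁ N Θ ν : ℝ) ^ (1 / (ν : ℝ)) :=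
        Real.rpow_le_rpow (by positivity) (key ν hν) (by positivity)

/-- If `g = ρ` then there are arbitrarily long runs. -/
theorem exists_run {ρ : ℝ} (hρ : ρ ^ 3 = ρ + 1) (hρ1 : 1 ≤ ρ) (hN : IsNorm N) (hN₁ : IsNorm N₁)
    (hg : g N₁ N ≤ ENNReal.ofReal ρ) (L : ℕ) (hL : 1 ≤ L) :
    ∃ (θ : Fin 2 → ℝ) (z : ℕ → Pt 2) (p : ℕ), IsFrame2 N θ z ∧ Run z p L := by
  obtain ⟨η, h1, h2⟩ := exists_eta hρ hρ1 L hL
  by_contra hcon
  push Not at hcon
  have h3 : ENNReal.ofReal (ρ * η) ≤ g N₁ N := by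
    refine le_iInf₂ fun Θ hΘ => ?_
    obtain ⟨ν₀, z, k0, k1, hz⟩ := Pool.Agent.Work.MP_7453a1_nt_sym.exists_frame2 hN (adm12.mp hΘ)
    have h4 := growth_no hρ hρ1 h1.le h2 hL next forb_no (tabOK hρ) (by norm_num) hz
      (fun p hp => hcon _ _ p hz hp)
    have hη0 : 0 < η := by linarith
    refine low12_of hN hN₁ hΘ (by nlinarith) ?_ k1 hz h4
    positivity
  have h4 := h3.trans hg
  have hρ0 : 0 < ρ := by linarith
  rw [ENNReal.ofReal_le_ofReal_iff hρ0.le] at h4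
  nlinarith

/-- A run gives a piece of a decreasing sequence. -/
theorem exists_piece {ρ : ℝ} (hρ : ρ ^ 3 = ρ + 1) (hρ1 : 1 ≤ ρ) (hN : IsNorm N) (hN₁ : IsNorm N₁)
    (hg : g N₁ N ≤ ENNReal.ofReal ρ) (L : ℕ) :
    ∃ a : ℕ → (Fin 2 → ℝ), (∀ j, j < L → a (j + 3) = a j + a (j + 1)) ∧
      (∀ j, 0 < N (a j)) ∧ ∀ j, N (a (j + 1)) ≤ N (a j) := by
  obtain ⟨θ, z, p, hz, hR⟩ := exists_run hρ hρ1 hN hN₁ hg (L + 1) (by omega)
  refine ⟨fun j => ev θ (z (p + j)), fun j hj => ?_, fun j => ?_, fun j => ?_⟩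
  · show ev θ (z (p + (j + 3))) = ev θ (z (p + j)) + ev θ (z (p + (j + 1)))
    rw [← map_add, ← Nat.add_assoc, ← Nat.add_assoc, hR j (by omega)]
  · have h1 := hz.anti (p + j) (p + j + 1) (by omega)
    exact lt_of_le_of_lt (apply_nonneg N _) h1
  · have h1 := hz.anti (p + j) (p + j + 1) (by omega)
    exact h1.le

end Pool.Agent.Work.MP_7453a1_ch
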