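import Pool.Agent.Work.MP_7453a1_gi.All

set_option autoImplicit false

/-!
Infinite decreasing sequences with `a_{k+3} = a_k + a_{k+1}` and the linear map `T` (helper85).
-/

namespace Pool.Agent.Work.MP_7453a1_ch

open Finset Real
open Pool.GI
open Pool.Agent.Work.MP_7453a1_nt (rho_bounds rho_sq_bounds)
open Pool.Agent.Work.MP_7453a1_nt_norm (IsNorm)
open Filter Topology

/-- seminorms of the plane are continuous -/
lemma cont_norm (N : Seminorm ℝ V) : Continuous N := by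
  obtain ⟨C, hC⟩ : ∃ C : ℝ, C = N ![1, 0] + N ![0, 1] := ⟨_, rfl⟩
  have h0 : 0 ≤ N ![1, 0] := apply_nonneg N _
  have h1 : 0 ≤ N ![0, 1] := apply_nonneg N _
  have hC0 : 0 ≤ C := by rw [hC]; exact add_nonneg h0 h1
  have hle : ∀ z : V, N z ≤ C * ‖z‖ := by
    intro z
    have h2 : z = z 0 • (![1, 0] : V) + z 1 • (![0, 1] : V) := by
      funext i
      fin_cases i <;> simp
    have h3 : N z ≤ |z 0| * N ![1, 0] + |z 1| * N ![0, 1] := by
      calc N z = N (z 0 • (![1, 0] : V) + z 1 • (![0, 1] : V)) := by rw [← h2]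
        _ ≤ N (z 0 • (![1, 0] : V)) + N (z 1 • (![0, 1] : V)) := map_add_le_add N _ _
        _ = _ := by rw [map_smul_eq_mul, map_smul_eq_mul, Real.norm_eq_abs, Real.norm_eq_abs]
    have h4 : |z 0| ≤ ‖z‖ := norm_le_pi_norm z 0
    have h5 : |z 1| ≤ ‖z‖ := norm_le_pi_norm z 1
    rw [hC]
    nlinarith
  have h1 : LipschitzWith ⟨C, hC0⟩ N := by
    apply LipschitzWith.of_dist_le_mul
    intro x y
    rw [Real.dist_eq, dist_eq_norm]
    exact (abs_sub_map_le_sub N x y).trans (hle _)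
  exact h1.continuous

/-- the shift of the triple -/
def tr3 (x : V × V × V) : V × V × V := (x.2.1, x.2.2, x.1 + x.2.1)

lemma tr3_cont : Continuous tr3 := by unfold tr3; fun_prop

/-- the sequence of the triple -/
def sq (x : V × V × V) (k : ℕ) : V := (tr3^[k] x).1

lemma sq_one (x : V × V × V) (k : ℕ) : sq x (k + 1) = (tr3^[k] x).2.1 := by
  unfold sq
  rw [Function.iterate_succ_apply']
  rfl

lemma sq_two (x : V × V × V) (k : ℕ) : sq x (k + 2) = (tr3^[k] x).2.2 := by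
  rw [sq_one, Function.iterate_succ_apply']
  rfl

lemma sq_three (x : V × V × V) (k : ℕ) : sq x (k + 3) = sq x k + sq x (k + 1) := by
  rw [sq_two, sq_one, Function.iterate_succ_apply']
  rfl

lemma sq_cont (k : ℕ) : Continuous fun x => sq x k := by
  unfold sq
  exact continuous_fst.comp (tr3_cont.iterate k)

/-- the compact sets -/
def cp (N : Seminorm ℝ V) (L : ℕ) : Set (V × V × V) :=
  {x | N x.1 = 1 ∧ ∀ k, k < L + 2 → N (sq x (k + 1)) ≤ N (sq x k)}

lemma cp_closed (N : Seminorm ℝ V) (L : ℕ) : IsClosed (cp N L) := by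
  have hN := cont_norm N
  have h : cp N L = {x | N x.1 = 1} ∩ ⋂ k : ℕ, ⋂ (_ : k < L + 2), {x | N (sq x (k + 1)) ≤ N (sq x k)} := by
    ext x
    simp [cp]
  rw [h]
  refine (isClosed_eq (hN.comp continuous_fst) continuous_const).inter ?_
  refine isClosed_iInter fun k => isClosed_iInter fun _ => ?_
  exact isClosed_le (hN.comp (sq_cont _)) (hN.comp (sq_cont _))

lemma cp_compact {N : Seminorm ℝ V} (hN : IsNorm N) (L : ℕ) : IsCompact (cp N L) := by
  refine Metric.isCompact_of_isClosed_isBounded (cp_closed N L) ?_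
  obtain ⟨c, hc, hlow⟩ := Pool.Agent.Work.MP_7453a1_nt_norm.lower hN
  refine (Metric.isBounded_closedBall (x := (0 : V × V × V)) (r := 1 / c)).subset ?_
  rintro ⟨x0, x1, x2⟩ ⟨h0, h1⟩
  have k0 : N x0 = 1 := h0
  have k1 : N x1 ≤ N x0 := h1 0 (by omega)
  have k2 : N x2 ≤ N x1 := h1 1 (by omega)
  have key : ∀ x : V, N x ≤ 1 → ‖x‖ ≤ 1 / c := by
    intro x hx
    rw [le_div_iff₀ hc]
    have := hlow x
    linarith
  rw [mem_closedBall_zero_iff, norm_prod_le_iff, norm_prod_le_iff]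
  exact ⟨key x0 k0.le, key x1 (by linarith), key x2 (by linarith)⟩

/-- the limit sequence -/
theorem exists_seq {N : Seminorm ℝ V} (hN : IsNorm N)
    (h : ∀ L : ℕ, ∃ a : ℕ → V, (∀ j, j < L → a (j + 3) = a j + a (j + 1)) ∧ (∀ j, 0 < N (a j)) ∧
      ∀ j, N (a (j + 1)) ≤ N (a j)) :
    ∃ a : ℕ → V, (∀ k, a (k + 3) = a k + a (k + 1)) ∧ N (a 0) = 1 ∧ ∀ k, N (a (k + 1)) ≤ N (a k) := by
  have hne : ∀ L, (cp N L).Nonempty := by
    intro L
    obtain ⟨a, h1, h2, h3⟩ := h (L + 3)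
    have hm := h2 0
    have hs : ∀ k, k ≤ L + 3 → sq ((N (a 0))⁻¹ • a 0, (N (a 0))⁻¹ • a 1, (N (a 0))⁻¹ • a 2) k =
        (N (a 0))⁻¹ • a k := by
      intro k
      induction k using Nat.strong_induction_on with
      | _ k ih =>
        intro hk
        rcases Nat.lt_or_ge k 3 with h4 | h4
        · interval_cases k <;> rfl
        · obtain ⟨j, rfl⟩ : ∃ j, k = j + 3 := ⟨k - 3, by omega⟩
          rw [sq_three, ih j (by omega) (by omega), ih (j + 1) (by omega) (by omega), h1 j (by omega),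
            smul_add]
    refine ⟨((N (a 0))⁻¹ • a 0, (N (a 0))⁻¹ • a 1, (N (a 0))⁻¹ • a 2), ?_, fun k hk => ?_⟩
    · show N ((N (a 0))⁻¹ • a 0) = 1
      rw [map_smul_eq_mul, norm_inv, Real.norm_eq_abs, abs_of_pos hm, inv_mul_cancel₀ hm.ne']
    · rw [hs _ (by omega), hs _ (by omega), map_smul_eq_mul, map_smul_eq_mul]
      exact mul_le_mul_of_nonneg_left (h3 k) (norm_nonneg _)
  obtain ⟨x, hx⟩ := IsCompact.nonempty_iInter_of_sequence_nonempty_isCompact_isClosed (cp N)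
    (fun L x hx => ⟨hx.1, fun k hk => hx.2 k (by omega)⟩) hne (cp_compact hN 0)
    (fun L => cp_closed N L)
  have h1 := fun L => Set.mem_iInter.mp hx L
  exact ⟨sq x, sq_three x, (h1 0).1, fun k => (h1 k).2 k (by omega)⟩

/-- the component of `ρ` is zero -/
theorem seq_quad {ρ : ℝ} (hρ : ρ ^ 3 = ρ + 1) {N : Seminorm ℝ V} (hN : IsNorm N) {a : ℕ → V}
    (h1 : ∀ k, a (k + 3) = a k + a (k + 1)) (h2 : N (a 0) = 1) (h3 : ∀ k, N (a (k + 1)) ≤ N (a k)) (k : ℕ) :
    a (k + 2) = -(ρ • a (k + 1)) - (ρ ^ 2 - 1) • a k := by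
  obtain ⟨r1, r2⟩ := rho_bounds hρ
  obtain ⟨s1, s2⟩ := rho_sq_bounds hρ
  obtain ⟨y, hy⟩ : ∃ y : ℕ → V, ∀ k, y k = a (k + 2) + ρ • a (k + 1) + (ρ ^ 2 - 1) • a k := ⟨_, fun k => rfl⟩
  have e : ρ * (ρ ^ 2 - 1) = 1 := by linear_combination hρ
  have hs : ∀ k, y (k + 1) = ρ • y k := by
    intro k
    have e1 : y (k + 1) = a (k + 3) + ρ • a (k + 2) + (ρ ^ 2 - 1) • a (k + 1) := hy (k + 1)
    have e2 : ρ • (a (k + 2) + ρ • a (k + 1) + (ρ ^ 2 - 1) • a k) =
        ρ • a (k + 2) + (ρ ^ 2) • a (k + 1) + (ρ * (ρ ^ 2 - 1)) • a k := by module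
    rw [e1, hy, h1, e2, e]
    module
  have hp : ∀ k, y k = ρ ^ k • y 0 := by
    intro k
    induction k with
    | zero => simp
    | succ k ih => rw [hs, ih, smul_smul, ← pow_succ']
  have hb : ∀ k, N (a k) ≤ 1 := by
    intro k
    induction k with
    | zero => exact h2.le
    | succ k ih => exact (h3 k).trans ih
  have hbd : ∀ k, N (y k) ≤ 4 := by
    intro k
    rw [hy]
    refine (map_add_le_add N _ _).trans ?_
    have g1 := map_add_le_add N (a (k + 2)) (ρ • a (k + 1))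
    rw [map_smul_eq_mul, Real.norm_eq_abs, abs_of_pos (by linarith)] at g1
    rw [map_smul_eq_mul, Real.norm_eq_abs, abs_of_pos (by linarith)]
    have g2 := hb (k + 2)
    have g3 := mul_le_mul_of_nonneg_left (hb (k + 1)) (by linarith : 0 ≤ ρ)
    have g4 := mul_le_mul_of_nonneg_left (hb k) (by linarith : 0 ≤ ρ ^ 2 - 1)
    linarith
  have h0 : y 0 = 0 := by
    apply hN
    by_contra hne
    have hpos : 0 < N (y 0) := lt_of_le_of_ne (apply_nonneg N _) (Ne.symm hne)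
    obtain ⟨k, hk⟩ := pow_unbounded_of_one_lt (4 / N (y 0)) (by linarith : 1 < ρ)
    have g := hbd k
    rw [hp, map_smul_eq_mul, Real.norm_eq_abs, abs_of_pos (by positivity)] at g
    rw [div_lt_iff₀ hpos] at hk
    linarith
  have hk : y k = 0 := by rw [hp, h0, smul_zero]
  rw [hy] at hk
  have e3 : a (k + 2) = (a (k + 2) + ρ • a (k + 1) + (ρ ^ 2 - 1) • a k) - ρ • a (k + 1) -
      (ρ ^ 2 - 1) • a k := by module
  rw [e3, hk]
  module

/-- the first two vectors are independent -/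
theorem seq_indep {ρ : ℝ} {N : Seminorm ℝ V} {a : ℕ → V}
    (h1 : ∀ k, a (k + 3) = a k + a (k + 1)) (h2 : N (a 0) = 1) (h3 : ∀ k, N (a (k + 1)) ≤ N (a k))
    (h4 : a 2 = -(ρ • a 1) - (ρ ^ 2 - 1) • a 0) (u v : ℝ) (h : u • a 0 + v • a 1 = 0) : u = 0 ∧ v = 0 := by
  have ha0 : a 0 ≠ 0 := by
    intro h0
    rw [h0, map_zero] at h2
    exact zero_ne_one h2
  by_cases hv : v = 0
  · rw [hv, zero_smul, add_zero] at h
    rcases smul_eq_zero.mp h with h | h
    · exact ⟨h, hv⟩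
    · exact absurd h ha0
  · exfalso
    obtain ⟨t, ht⟩ : ∃ t : ℝ, a 1 = t • a 0 := by
      refine ⟨-(u / v), ?_⟩
      have e1 : v • a 1 = -(u • a 0) := by
        rw [eq_neg_iff_add_eq_zero, add_comm]; exact h
      have e2 : a 1 = v⁻¹ • (v • a 1) := by rw [smul_smul, inv_mul_cancel₀ hv, one_smul]
      rw [e2, e1, div_eq_inv_mul]
      module
    obtain ⟨s, hs⟩ : ∃ s : ℝ, a 2 = s • a 0 := by
      refine ⟨-(ρ * t) - (ρ ^ 2 - 1), ?_⟩
      rw [h4, ht]
      module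
    have e3 : a 3 = (1 + t) • a 0 := by
      rw [h1 0, ht]; module
    have e4 : a 4 = (t + s) • a 0 := by
      rw [h1 1, ht, hs]; module
    have e5 : a 5 = (s + (1 + t)) • a 0 := by
      rw [h1 2, hs, e3]; module
    have g0 := h3 0
    have g1 := h3 1
    have g2 := h3 2
    have g3 := h3 3
    have g4 := h3 4
    simp only [Nat.zero_add, Nat.reduceAdd] at g0 g1 g2 g3 g4
    rw [ht, map_smul_eq_mul, Real.norm_eq_abs, h2, mul_one] at g0
    rw [ht, hs, map_smul_eq_mul, map_smul_eq_mul, Real.norm_eq_abs, Real.norm_eq_abs, h2, mul_one, mul_one] at g1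
    rw [hs, e3, map_smul_eq_mul, map_smul_eq_mul, Real.norm_eq_abs, Real.norm_eq_abs, h2, mul_one, mul_one] at g2
    rw [e3, e4, map_smul_eq_mul, map_smul_eq_mul, Real.norm_eq_abs, Real.norm_eq_abs, h2, mul_one, mul_one] at g3
    rw [e4, e5, map_smul_eq_mul, map_smul_eq_mul, Real.norm_eq_abs, Real.norm_eq_abs, h2, mul_one, mul_one] at g4
    -- `t < 0`
    have t1 : t < 0 := by
      by_contra hcon
      push Not at hcon
      rw [abs_of_nonneg hcon] at g1
      rw [abs_of_nonneg (by linarith : 0 ≤ 1 + t)] at g2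
      linarith
    have t3 : 0 ≤ 1 + t := by
      rw [abs_of_neg t1] at g0
      linarith
    rw [abs_of_nonneg t3] at g2 g3
    have t2 : 0 < s := by
      by_contra hcon
      push Not at hcon
      rw [abs_of_nonpos (by linarith : t + s ≤ 0)] at g3
      rw [abs_of_nonpos hcon] at g2
      linarith
    rw [abs_of_pos (by linarith : 0 < s + (1 + t))] at g4
    linarith

/-- the directions of the powers of `lam` are dense -/
theorem exists_dir {ρ : ℝ} (hρ : ρ ^ 3 = ρ + 1) (ζ : ℂ) (ℓ : ℝ) (hℓ : 0 < ℓ) (hℓ1 : ℓ < 1) :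
    ∃ (k : ℕ) (δ r : ℝ), 0 ≤ δ ∧ δ ≤ ℓ ∧ ζ * Complex.exp ((π * δ : ℝ) * Complex.I) = (r : ℂ) * lam ρ ^ k := by
  obtain ⟨-, hl0, -⟩ := q_LMB ρ hρ
  have hln : 0 < ‖lam ρ‖ := norm_pos_iff.mpr hl0
  obtain ⟨C, hC⟩ := q_EQD (Complex.arg (lam ρ) / π) (q_IRR ρ hρ) ℓ (ℓ / 2) hℓ hℓ1 (by linarith)
  obtain ⟨K, hK⟩ := exists_nat_gt ((C + 1) / (ℓ / 2))
  rw [div_lt_iff₀ (by linarith)] at hK
  have h1 := hC (-(Complex.arg ζ / π)) K
  have h2 : (0 : ℝ) < (((range K).filter (fun k : ℕ =>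
      Int.fract (-(Complex.arg ζ / π) + k * (Complex.arg (lam ρ) / π)) ≤ ℓ)).card : ℝ) := by
    have : (ℓ - ℓ / 2) * K = K * (ℓ / 2) := by ring
    rw [this] at h1
    linarith
  have h3 : 0 < ((range K).filter (fun k : ℕ =>
      Int.fract (-(Complex.arg ζ / π) + k * (Complex.arg (lam ρ) / π)) ≤ ℓ)).card := by exact_mod_cast h2
  obtain ⟨k, hk⟩ := card_pos.mp h3
  have hk := (mem_filter.mp hk).2
  obtain ⟨δ, hδ⟩ : ∃ δ : ℝ, δ = Int.fract (-(Complex.arg ζ / π) + k * (Complex.arg (lam ρ) / π)) := ⟨_, rfl⟩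
  obtain ⟨m, hm⟩ : ∃ m : ℤ, m = ⌊-(Complex.arg ζ / π) + k * (Complex.arg (lam ρ) / π)⌋ := ⟨_, rfl⟩
  have h4 : (m : ℝ) + δ = -(Complex.arg ζ / π) + k * (Complex.arg (lam ρ) / π) := by
    rw [hδ, hm]
    exact Int.floor_add_fract _
  have hπ : π ≠ 0 := Real.pi_ne_zero
  have h5 : Complex.arg ζ + π * δ = k * Complex.arg (lam ρ) - m * π := by
    field_simp at h4
    linarith
  have h6 : Complex.exp ((m * π : ℝ) * Complex.I) = ((-1 : ℝ) ^ m.natAbs : ℝ) := by
    have g1 : Complex.exp ((m * π : ℝ) * Complex.I) = ((-1 : ℂ)) ^ m := by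
      rw [← Complex.exp_pi_mul_I, ← Complex.exp_int_mul]
      push_cast
      ring_nf
    rw [g1]
    push_cast
    rcases Int.natAbs_eq m with h | h
    · conv_lhs => rw [h]
      rw [zpow_natCast]
    · conv_lhs => rw [h]
      rw [zpow_neg, zpow_natCast, ← inv_pow]
      norm_num
  refine ⟨k, δ, ‖ζ‖ * ((-1 : ℝ) ^ m.natAbs)⁻¹ / ‖lam ρ‖ ^ k, ?_, ?_, ?_⟩
  · rw [hδ]; exact Int.fract_nonneg _
  · rw [hδ]; exact hk
  · have g1 : ζ = ‖ζ‖ * Complex.exp (Complex.arg ζ * Complex.I) := (Complex.norm_mul_exp_arg_mul_I ζ).symm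
    have g2 : lam ρ = ‖lam ρ‖ * Complex.exp (Complex.arg (lam ρ) * Complex.I) :=
      (Complex.norm_mul_exp_arg_mul_I _).symm
    have g3 : lam ρ ^ k = ‖lam ρ‖ ^ k * Complex.exp ((k * Complex.arg (lam ρ) : ℝ) * Complex.I) := by
      conv_lhs => rw [g2]
      rw [mul_pow, ← Complex.exp_nat_mul]
      push_cast
      ring_nf
    have g4 : ζ * Complex.exp ((π * δ : ℝ) * Complex.I) =
        ‖ζ‖ * Complex.exp ((k * Complex.arg (lam ρ) - m * π : ℝ) * Complex.I) := by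
      rw [← h5]
      conv_lhs => rw [g1]
      rw [mul_assoc, ← Complex.exp_add]
      push_cast
      ring_nf
    have g5 : Complex.exp ((k * Complex.arg (lam ρ) - m * π : ℝ) * Complex.I) =
        Complex.exp ((k * Complex.arg (lam ρ) : ℝ) * Complex.I) * (Complex.exp ((m * π : ℝ) * Complex.I))⁻¹ := by
      rw [← Complex.exp_neg, ← Complex.exp_add]
      push_cast
      ring_nf
    rw [g4, g5, h6, g3]
    have hl : (‖lam ρ‖ : ℂ) ≠ 0 := by exact_mod_cast hln.ne'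
    push_cast
    field_simp

/-- monotonicity along the powers of `lam` gives monotonicity everywhere -/
theorem dec_all {ρ : ℝ} (hρ : ρ ^ 3 = ρ + 1) (n : Seminorm ℝ ℂ) (hc : Continuous n)
    (h : ∀ k, n (lam ρ ^ (k + 1)) ≤ n (lam ρ ^ k)) (ζ : ℂ) : n (lam ρ * ζ) ≤ n ζ := by
  have hcl : IsClosed {ζ : ℂ | n (lam ρ * ζ) ≤ n ζ} :=
    isClosed_le (hc.comp (continuous_const.mul continuous_id)) hc
  have hex : ∀ j : ℕ, ∃ δ : ℝ, 0 ≤ δ ∧ δ ≤ 1 / ((j : ℝ) + 2) ∧
      ζ * Complex.exp ((π * δ : ℝ) * Complex.I) ∈ {ζ : ℂ | n (lam ρ * ζ) ≤ n ζ} := by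
    intro j
    have hj : (0 : ℝ) ≤ (j : ℝ) := Nat.cast_nonneg j
    obtain ⟨k, δ, r, h1, h2, h3⟩ := exists_dir hρ ζ (1 / ((j : ℝ) + 2)) (by positivity)
      (by rw [div_lt_one (by positivity)]; linarith)
    refine ⟨δ, h1, h2, ?_⟩
    show n (lam ρ * (ζ * Complex.exp ((π * δ : ℝ) * Complex.I))) ≤ n (ζ * Complex.exp ((π * δ : ℝ) * Complex.I))
    rw [h3]
    have e1 : lam ρ * ((r : ℂ) * lam ρ ^ k) = r • lam ρ ^ (k + 1) := by
      rw [Complex.real_smul]; ring
    have e2 : (r : ℂ) * lam ρ ^ k = r • lam ρ ^ k := by rw [Complex.real_smul]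
    rw [e1, e2, map_smul_eq_mul, map_smul_eq_mul]
    exact mul_le_mul_of_nonneg_left (h k) (norm_nonneg _)
  choose δ hd using hex
  have hlim : Tendsto δ atTop (𝓝 0) := by
    refine squeeze_zero (fun j => (hd j).1) (fun j => (hd j).2.1) ?_
    have h1 : Tendsto (fun j : ℕ => (j : ℝ) + 2) atTop atTop :=
      tendsto_atTop_add_const_right _ _ tendsto_natCast_atTop_atTop
    have h2 := h1.inv_tendsto_atTop
    refine h2.congr fun j => ?_
    simp
  have hlim2 : Tendsto (fun j => ζ * Complex.exp ((π * δ j : ℝ) * Complex.I)) atTop (𝓝 ζ) := by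
    have h1 : Continuous fun x : ℝ => ζ * Complex.exp ((π * x : ℝ) * Complex.I) := by fun_prop
    have h2 := (h1.tendsto 0).comp hlim
    have h3 : ζ * Complex.exp ((π * (0 : ℝ) : ℝ) * Complex.I) = ζ := by simp
    rw [h3] at h2
    exact h2
  exact hcl.mem_of_tendsto hlim2 (Eventually.of_forall fun j => (hd j).2.2)

/-- the linear map of a decreasing sequence -/
theorem exists_map {ρ : ℝ} (hρ : ρ ^ 3 = ρ + 1) {N : Seminorm ℝ V} (hN : IsNorm N) {a : ℕ → V}
    (h1 : ∀ k, a (k + 3) = a k + a (k + 1)) (h2 : N (a 0) = 1) (h3 : ∀ k, N (a (k + 1)) ≤ N (a k)) :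
    ∃ T : V →ₗ[ℝ] V, (∀ x, T (T (T x)) = T x + x) ∧ ∀ x, N (T x) ≤ N x := by
  have hquad := seq_quad hρ hN h1 h2 h3
  have hind := seq_indep h1 h2 h3 (hquad 0)
  obtain ⟨t0, t1⟩ := LMB_s hρ
  obtain ⟨hl3, hl0, -, -, hsq, -⟩ := q_LMB ρ hρ
  have hre : (lam ρ).re = -ρ / 2 := rfl
  have him : (lam ρ).im = √(3 * ρ ^ 2 - 4) / 2 := rfl
  obtain ⟨s, hs⟩ : ∃ s : ℝ, s = √(3 * ρ ^ 2 - 4) / 2 := ⟨_, rfl⟩
  have hs0 : 0 < s := by rw [hs]; linarith
  rw [← hs] at him
  let B : ℂ →ₗ[ℝ] V :=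
    { toFun := fun ζ => (ζ.re + ρ / 2 * (ζ.im / s)) • a 0 + (ζ.im / s) • a 1
      map_add' := fun x y => by simp only [Complex.add_re, Complex.add_im, add_div]; module
      map_smul' := fun c x => by
        simp only [Complex.real_smul, Complex.re_ofReal_mul, Complex.im_ofReal_mul, RingHom.id_apply, mul_div_assoc]
        module }
  have hB : ∀ ζ : ℂ, B ζ = (ζ.re + ρ / 2 * (ζ.im / s)) • a 0 + (ζ.im / s) • a 1 := fun ζ => rfl
  have hinj : Function.Injective B := by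
    rw [← LinearMap.ker_eq_bot, LinearMap.ker_eq_bot']
    intro ζ hζ
    obtain ⟨g1, g2⟩ := hind _ _ ((hB ζ).symm.trans hζ)
    have g3 : ζ.im = 0 := by
      rcases div_eq_zero_iff.mp g2 with h | h
      · exact h
      · exact absurd h hs0.ne'
    rw [g2, mul_zero, add_zero] at g1
    exact Complex.ext g1 g3
  let E : ℂ ≃ₗ[ℝ] V := LinearEquiv.ofInjectiveOfFinrankEq B hinj (by
    rw [Complex.finrank_real_complex]
    simp)
  have hE : ∀ ζ, E ζ = B ζ := fun ζ => rfl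
  have hpow : ∀ k, E (lam ρ ^ k) = a k := by
    intro k
    induction k using Nat.strong_induction_on with
    | _ k ih =>
      rcases Nat.lt_or_ge k 2 with h4 | h4
      · interval_cases k
        · rw [pow_zero, hE, hB]
          simp
        · rw [pow_one, hE, hB, hre, him, div_self hs0.ne']
          module
      · obtain ⟨j, rfl⟩ : ∃ j, k = j + 2 := ⟨k - 2, by omega⟩
        have e1 : lam ρ ^ (j + 2) = (-ρ : ℝ) • lam ρ ^ (j + 1) - (ρ ^ 2 - 1 : ℝ) • lam ρ ^ j := by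
          rw [pow_add, hsq, Complex.real_smul, Complex.real_smul]
          push_cast
          ring
        rw [e1, map_sub, map_smul, map_smul, ih (j + 1) (by omega), ih j (by omega), hquad j]
        module
  let M : ℂ →ₗ[ℝ] ℂ := LinearMap.mulLeft ℝ (lam ρ)
  have hM : ∀ ζ, M ζ = lam ρ * ζ := fun ζ => rfl
  let T : V →ₗ[ℝ] V := E.toLinearMap ∘ₗ M ∘ₗ E.symm.toLinearMap
  have hT : ∀ x, T x = E (lam ρ * E.symm x) := fun x => rfl
  refine ⟨T, fun x => ?_, fun x => ?_⟩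
  · have e1 : ∀ x, E.symm (T x) = lam ρ * E.symm x := by
      intro x
      rw [hT, LinearEquiv.symm_apply_apply]
    apply E.symm.injective
    rw [e1, e1, e1, map_add, e1]
    linear_combination (E.symm x) * hl3
  · have h4 := dec_all hρ (push N E.symm) ?_ ?_ (E.symm x)
    · have e1 : push N E.symm (lam ρ * E.symm x) = N (T x) := rfl
      have e2 : push N E.symm (E.symm x) = N x := by
        rw [push_apply, LinearEquiv.symm_symm, LinearEquiv.apply_symm_apply]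
      rwa [e1, e2] at h4
    · have h5 : Continuous (fun ζ : ℂ => (E ζ : V)) := E.toLinearMap.continuous_of_finiteDimensional
      exact (cont_norm N).comp h5
    · intro k
      show N (E (lam ρ ^ (k + 1))) ≤ N (E (lam ρ ^ k))
      rw [hpow, hpow]
      exact h3 k

end Pool.Agent.Work.MP_7453a1_ch
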