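import Pool.Agent.Work.MP_7453a1_ch.Low
import Pool.Agent.Work.MP_7453a1_ch.Orbit

set_option autoImplicit false

/-!
The norms with `g = ρ ^ (1/m)` decrease under a linear map `T` with `T³ = T + 1` (helper85).
-/

namespace Pool.Agent.Work.MP_7453a1_ch

open Pool.Agent.Work.MP_7453a1_nt_norm (IsNorm Pt er ev)
open Pool.Agent.Work.MP_7453a1_nt_sym (IsFrame2)
open Pool.Agent.Work.MP_7453a1_nt_two (Admissible G g UG)
open Pool.Agent.Work.MP_7453a1_an (next forb_no tabOK)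
open scoped ENNReal

variable {N : Seminorm ℝ (Fin 2 → ℝ)} {N₁ : Seminorm ℝ (Fin 1 → ℝ)}

/-- Pieces of decreasing sequences for `m = 2`. -/
theorem exists_piece2 {ρ : ℝ} (hρ : ρ ^ 3 = ρ + 1) (hρ1 : 1 ≤ ρ) (hN : IsNorm N) (hN₁ : IsNorm N₁)
    (hg : g N N₁ ≤ ENNReal.ofReal √ρ) (L : ℕ) :
    ∃ a : ℕ → (Fin 2 → ℝ), (∀ j, j < L → a (j + 3) = a j + a (j + 1)) ∧
      (∀ j, 0 < N (a j)) ∧ ∀ j, N (a (j + 1)) ≤ N (a j) := by
  obtain ⟨η, h1, h2⟩ := exists_eta hρ hρ1 (L + 1) (by omega)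
  have hη0 : 0 < η := by linarith
  have hρ0 : 0 < ρ := by linarith
  by_contra hcon
  have hUG : ∀ A : (Fin 2 → ℝ) →ₗ[ℝ] (Fin 2 → ℝ), Function.Injective A →
      UG (N.comp A) (ρ * η) ((((940964 : ℕ) : ℝ) * η ^ (L + 1)) * (ρ * η) ^ 4)⁻¹ := by
    intro A _ θ z hz k
    refine growth_no hρ hρ1 h1.le h2 (by omega) next forb_no (tabOK hρ) (by norm_num) hz (fun p hR => ?_) k
    refine hcon ⟨fun j => A (ev θ (z (p + j))), fun j hj => ?_, fun j => ?_, fun j => ?_⟩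
    · show A (ev θ (z (p + (j + 3)))) = A (ev θ (z (p + j))) + A (ev θ (z (p + (j + 1))))
      rw [← map_add, ← map_add, ← Nat.add_assoc, ← Nat.add_assoc, hR j (by omega)]
    · have h3 := hz.anti (p + j) (p + j + 1) (by omega)
      exact lt_of_le_of_lt (apply_nonneg (N.comp A) _) h3
    · have h3 := hz.anti (p + j) (p + j + 1) (by omega)
      exact h3.le
  have h3 : ENNReal.ofReal √(ρ * η) ≤ g N N₁ :=
    le_iInf₂ fun Θ hΘ => (Pool.Agent.Work.MP_7453a1_nt_two.low hN hN₁ hΘ (by nlinarith) (by positivity) hUG).2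
  have h4 := h3.trans hg
  rw [ENNReal.ofReal_le_ofReal_iff (Real.sqrt_nonneg _), Real.sqrt_le_sqrt_iff hρ0.le] at h4
  nlinarith

/-- `m = 1`. -/
theorem nec_one {ρ : ℝ} (hρ : ρ ^ 3 = ρ + 1) (hρ1 : 1 ≤ ρ) (hN : IsNorm N) (hN₁ : IsNorm N₁)
    (hg : g N₁ N ≤ ENNReal.ofReal ρ) :
    ∃ T : (Fin 2 → ℝ) →ₗ[ℝ] (Fin 2 → ℝ), (∀ x, T (T (T x)) = T x + x) ∧ ∀ x, N (T x) ≤ N x := by
  obtain ⟨a, h1, h2, h3⟩ := exists_seq hN (exists_piece hρ hρ1 hN hN₁ hg)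
  exact exists_map hρ hN h1 h2 h3

/-- `m = 2`. -/
theorem nec_two {ρ : ℝ} (hρ : ρ ^ 3 = ρ + 1) (hρ1 : 1 ≤ ρ) (hN : IsNorm N) (hN₁ : IsNorm N₁)
    (hg : g N N₁ ≤ ENNReal.ofReal √ρ) :
    ∃ T : (Fin 2 → ℝ) →ₗ[ℝ] (Fin 2 → ℝ), (∀ x, T (T (T x)) = T x + x) ∧ ∀ x, N (T x) ≤ N x := by
  obtain ⟨a, h1, h2, h3⟩ := exists_seq hN (exists_piece2 hρ hρ1 hN hN₁ hg)
  exact exists_map hρ hN h1 h2 h3

end Pool.Agent.Work.MP_7453a1_ch
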