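import Pool.Agent.Work.MP_7453a1_an.Main

set_option autoImplicit false

/-!
Long runs of the special move, if the growth is close to `ρ` (helper85).
-/

namespace Pool.Agent.Work.MP_7453a1_ch

open Pool.Agent.Work.MP_7453a1_nt_norm Pool.Agent.Work.MP_7453a1_nt_h45
open Pool.Agent.Work.MP_7453a1_nt_sym (IsFrame2)
open Pool.Agent.Work.MP_7453a1_st (Letter lt Rel steps pts pts_KL condH dval slowC fastC flagC
  neq neq_eq slots Entry lv wr wr_append rel_drop rel_append steps_append letters)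
open Pool.Agent.Work.MP_7453a1_su (lfarkas lbase wC wC_holds sh condH_sh lite_refute)
open Pool.Agent.Work.MP_7453a1_an

/-- A run of `L` special moves from `p` on. -/
def Run (z : ℕ → Pt 2) (p L : ℕ) : Prop := ∀ j, j < L → z (p + j + 3) = z (p + j) + z (p + j + 1)

section
variable {N : Seminorm ℝ (Fin 2 → ℝ)} {Θ : Fin 2 → ℝ} {z : ℕ → Pt 2} {p : ℕ}

lemma lt_zero_eq (h : (lt 0).holds z p) : z (p + 3) = z p + z (p + 1) := by
  have h1 := h.1 0 (1, 1, 0) rfl
  simp only [one_smul, zero_smul, add_zero] at h1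
  exact h1

/-- Soundness of an entry: the special move, or the larger factor. -/
theorem entry_strong {ρ : ℝ} (hρ : ρ ^ 3 = ρ + 1) {rn tn td : ℤ} (hrn : 0 ≤ rn) (htd : 0 < td)
    (h1 : (rn : ℝ) ≤ td * ρ) (h2 : (td : ℝ) * ρ ≤ tn) (hz : IsFrame2 N Θ z)
    {fb : List (List ℕ)} (hfb : ∀ w ∈ fb, NoWord w) {sts : List ASt}
    (hb : ∀ S ∈ sts, bdOK rn tn td S = true) {S : ASt} (hSs : S ∈ sts) (hS : Inv z p S) {l : ℕ}
    {tf : Bool} {e : Entry} (he : entryOK tn td fb sts S l tf e = true) (hl : (lt l).holds z p)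
    (hf : condH z (p + (lt l).step) (flagC tf)) :
    ∃ S' ∈ sts, Inv z (p + (lt l).step) S' ∧
      ((l = 0 ∧ ρ * pot ρ z p S ≤ pot ρ z (p + (lt l).step) S') ∨
        (tn : ℝ) ^ (lt l).step * pot ρ z p S ≤ (td : ℝ) ^ (lt l).step * pot ρ z (p + (lt l).step) S') := by
  obtain ⟨⟨s, hs, hrel⟩, -⟩ := hS
  have hst : steps (wr (S.w ++ [l])) = steps (wr S.w) + (lt l).step := by
    rw [wr_append, steps_append]
    simp [wr, steps]
  have hW : Rel z s (wr (S.w ++ [l])) := by
    rw [wr_append, rel_append, hs]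
    exact ⟨hrel, hl, trivial⟩
  have htd' : (0 : ℝ) < (td : ℝ) := by exact_mod_cast htd
  have hrn' : (0 : ℝ) ≤ (rn : ℝ) := by exact_mod_cast hrn
  unfold entryOK at he
  split at he
  · exfalso
    split at he
    · next u hu =>
      have h1 := neq_eq he
      have h2 := rel_drop e.k hW
      rw [← h1] at h2
      exact hfb u (List.mem_of_getElem? hu) N Θ z hz _ h2
    · simp at he
  · split at he
    · next S' hS' =>
      simp only [Bool.and_eq_true, Bool.or_eq_true, beq_iff_eq] at he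
      obtain ⟨k1, k2, k3⟩ := he
      have k1 := neq_eq k1
      have hS's := List.mem_of_getElem? hS'
      refine ⟨S', hS's, ⟨⟨s + steps (wr ((S.w ++ [l]).take e.k)), ?_, ?_⟩, ?_⟩, ?_⟩
      · have h4 : steps (wr (S.w ++ [l])) = steps (wr ((S.w ++ [l]).take e.k)) +
            steps (wr ((S.w ++ [l]).drop e.k)) := by
          rw [← steps_append, ← wr_append, List.take_append_drop]
        rw [k1]
        omega
      · rw [k1]
        exact rel_drop e.k hW
      · rw [k2]; exact hf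
      · rcases k3 with ⟨l0, l1, l2⟩ | k3
        · have l0 := Nat.eq_of_beq_eq_true l0
          have l1 := Nat.le_of_ble_eq_true l1
          have l2 := Nat.eq_of_beq_eq_true l2
          subst l0
          left
          refine ⟨rfl, ?_⟩
          rw [lt_zero_step]
          have h3 := lt_zero_holds hl
          unfold pot
          rw [if_neg (by omega), if_neg (by omega), ← l2, Nat.add_assoc, Nat.add_assoc]
          simp only [Nat.reduceAdd]
          rw [h3]
          apply le_of_eq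
          linear_combination (S.K : ℝ) * ((z (p + 1)).1 : ℝ) * hρ
        · right
          by_contra hcon
          push Not at hcon
          have b1 := (pot_bd (p := p) hrn htd h1 h2 hz.pos (hb S hSs)).2
          have b2 := (pot_bd (p := p + (lt l).step) hrn htd h1 h2 hz.pos (hb S' hS's)).1
          have htn : (0 : ℝ) ≤ (tn : ℝ) := hrn'.trans (h1.trans h2)
          have b4 : (td : ℝ) ^ (lt l).step * lv z (p + (lt l).step) S'.lo <
              (tn : ℝ) ^ (lt l).step * lv z p S.up := by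
            calc (td : ℝ) ^ (lt l).step * lv z (p + (lt l).step) S'.lo
                ≤ (td : ℝ) ^ (lt l).step * pot ρ z (p + (lt l).step) S' :=
                  mul_le_mul_of_nonneg_left b2 (by positivity)
              _ < (tn : ℝ) ^ (lt l).step * pot ρ z p S := hcon
              _ ≤ _ := mul_le_mul_of_nonneg_left b1 (pow_nonneg htn _)
          refine lite_refute hz.pos (fun k => hz.mono k (k + 1) (by omega)) (pts_KL hW)
            (fun c hc => ?_) k3
          rcases List.mem_append.mp hc with hc | hc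
          · exact wC_holds (j := 0) hW c hc
          · simp only [List.mem_cons, List.not_mem_nil, or_false] at hc
            rcases hc with rfl | rfl
            · apply condH_sh
              rw [hst, ← Nat.add_assoc, hs]
              exact hf
            · rw [hst]
              simp only [potC, condH, if_true, dval, List.foldr_cons, List.foldr_nil,
                Pool.Agent.Work.MP_7453a1_nt_sup.den_apply]
              unfold lv at b4
              have e1 : s + steps (wr S.w) = p := hs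
              have e2 : s + (steps (wr S.w) + 1) = p + 1 := by omega
              have e3 : s + (steps (wr S.w) + 2) = p + 2 := by omega
              have e4 : s + (steps (wr S.w) + (lt l).step) = p + (lt l).step := by omega
              have e5 : s + (steps (wr S.w) + (lt l).step + 1) = p + (lt l).step + 1 := by omega
              have e6 : s + (steps (wr S.w) + (lt l).step + 2) = p + (lt l).step + 2 := by omega
              rw [e1, e2, e3, e4, e5, e6]
              push_cast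
              linarith
    · simp at he

/-- The growth without long runs. -/
lemma chain_no {ρ η : ℝ} {fb : List (List ℕ)} {sts : List ASt} {rn tn td : ℤ} {B L : ℕ}
    (hρ : ρ ^ 3 = ρ + 1) (hρ1 : 1 ≤ ρ) (hη : 1 ≤ η) (hηL : td * ρ * η ^ (3 * L) ≤ tn) (hL : 1 ≤ L)
    (hN : Stmt_NEXT) (hfb : ∀ w ∈ fb, NoWord w) (hT : TabOK ρ fb sts rn tn td B) (hz : IsFrame2 N Θ z)
    (hno : ∀ p, ¬ Run z p L) :
    ∀ k, ∃ p, p ≤ k ∧ k ≤ p + 2 ∧ ∃ S ∈ sts, Inv z p S ∧ ∃ j q, j < L ∧ q + j = p ∧ Run z q j ∧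
      (ρ * η) ^ p * ((z 0).1 : ℝ) ≤ pot ρ z p S * η ^ j := by
  have h0 : (0 : ℝ) < ((z 0).1 : ℝ) := by exact_mod_cast hz.pos 0
  have hη0 : 0 < η := by linarith
  have hρ0 : 0 < ρ := by linarith
  have htd' : (0 : ℝ) < (td : ℝ) := by exact_mod_cast hT.htd
  intro k
  induction k with
  | zero =>
    obtain ⟨f, hf⟩ := flag_cases z 0
    obtain ⟨i, cert, hc⟩ := hT.start f
    obtain ⟨S, hS, hI, hv⟩ := start_sound hT.hrn hT.htd hT.h1 hT.h2 hz hT.bd hc hf
    refine ⟨0, le_rfl, by omega, S, hS, hI, 0, 0, by omega, rfl, fun j hj => absurd hj (by omega), ?_⟩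
    simpa using hv
  | succ k ih =>
    obtain ⟨p, h1, h2, S, hS, hI, j, q, hj, hq, hR, hv⟩ := ih
    by_cases hk : k + 1 ≤ p + 2
    · exact ⟨p, by omega, hk, S, hS, hI, j, q, hj, hq, hR, hv⟩
    · obtain ⟨x, hx, hl, hf⟩ := hN N Θ z hz p S.fast hI.2
      obtain ⟨e, he⟩ := hT.ok S hS x hx
      have hp0 : 0 ≤ pot ρ z p S := by
        have h3 : 0 ≤ pot ρ z p S * η ^ j := le_trans (by positivity) hv
        exact nonneg_of_mul_nonneg_left h3 (by positivity)
      obtain ⟨S', hS', hI', hv'⟩ := entry_strong hρ hT.hrn hT.htd hT.h1 hT.h2 hz hfb hT.bd hS hI he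
        hl hf
      obtain ⟨b1, b2⟩ := step_bnd x.1
      rcases hv' with ⟨hx0, hv'⟩ | hv'
      · rw [hx0] at hl hI' hv' b1 b2
        rw [lt_zero_step] at hI' hv'
        have hrun : Run z q (j + 1) := by
          intro i hi
          rcases Nat.lt_succ_iff_lt_or_eq.mp hi with h3 | h3
          · exact hR i h3
          · rw [h3, hq]
            exact lt_zero_eq hl
        have hj' : j + 1 < L := by
          rcases Nat.lt_or_ge (j + 1) L with h3 | h3
          · exact h3
          · exfalso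
            have : L = j + 1 := by omega
            rw [← this] at hrun
            exact hno q hrun
        refine ⟨p + 1, by omega, by omega, S', hS', hI', j + 1, q, hj', by omega, hrun, ?_⟩
        calc (ρ * η) ^ (p + 1) * ((z 0).1 : ℝ) = ρ * η * ((ρ * η) ^ p * ((z 0).1 : ℝ)) := by ring
          _ ≤ ρ * η * (pot ρ z p S * η ^ j) := mul_le_mul_of_nonneg_left hv (by positivity)
          _ = ρ * pot ρ z p S * η ^ (j + 1) := by ring
          _ ≤ _ := mul_le_mul_of_nonneg_right hv' (by positivity)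
      · refine ⟨p + (lt x.1).step, by omega, by omega, S', hS', hI', 0, p + (lt x.1).step, by omega, rfl,
          fun j hj => absurd hj (by omega), ?_⟩
        set s := (lt x.1).step with hs
        rw [pow_zero, mul_one]
        -- `η ^ (s + j) ≤ (tn / (td ρ)) ^ s`
        have h3 : η ^ (s + j) ≤ η ^ (3 * L) := pow_le_pow_right₀ hη (by omega)
        have h4 : (1 : ℝ) ≤ η ^ (3 * L) := one_le_pow₀ hη
        have h5 : η ^ (3 * L) ≤ (η ^ (3 * L)) ^ s := by
          calc η ^ (3 * L) = (η ^ (3 * L)) ^ 1 := (pow_one _).symm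
            _ ≤ _ := pow_le_pow_right₀ h4 b1
        have h6 : (td * ρ) ^ s * η ^ (s + j) ≤ (tn : ℝ) ^ s := by
          calc (td * ρ) ^ s * η ^ (s + j) ≤ (td * ρ) ^ s * (η ^ (3 * L)) ^ s :=
                mul_le_mul_of_nonneg_left (h3.trans h5) (by positivity)
            _ = (td * ρ * η ^ (3 * L)) ^ s := (mul_pow _ _ _).symm
            _ ≤ _ := pow_le_pow_left₀ (by positivity) hηL s
        have h7 : (td : ℝ) ^ s * ((ρ * η) ^ (p + s) * ((z 0).1 : ℝ)) ≤ (td : ℝ) ^ s * pot ρ z (p + s) S' := by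
          calc (td : ℝ) ^ s * ((ρ * η) ^ (p + s) * ((z 0).1 : ℝ)) =
                (td * (ρ * η)) ^ s * ((ρ * η) ^ p * ((z 0).1 : ℝ)) := by
                  rw [pow_add, mul_pow (td : ℝ) (ρ * η)]; ring
            _ ≤ (td * (ρ * η)) ^ s * (pot ρ z p S * η ^ j) := mul_le_mul_of_nonneg_left hv (by positivity)
            _ = (td * ρ) ^ s * η ^ (s + j) * pot ρ z p S := by
                  rw [pow_add, ← mul_assoc (td : ℝ) ρ η, mul_pow (td * ρ : ℝ) η]; ring
            _ ≤ (tn : ℝ) ^ s * pot ρ z p S := mul_le_mul_of_nonneg_right h6 hp0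
            _ ≤ _ := hv'
        exact le_of_mul_le_mul_left h7 (by positivity)

/-- Growth of the denominators without long runs. -/
theorem growth_no {ρ η : ℝ} {fb : List (List ℕ)} {sts : List ASt} {rn tn td : ℤ} {B L : ℕ}
    (hρ : ρ ^ 3 = ρ + 1) (hρ1 : 1 ≤ ρ) (hη : 1 ≤ η) (hηL : td * ρ * η ^ (3 * L) ≤ tn) (hL : 1 ≤ L)
    (hN : Stmt_NEXT) (hfb : ∀ w ∈ fb, NoWord w) (hT : TabOK ρ fb sts rn tn td B) (hB : 1 ≤ B)
    (hz : IsFrame2 N Θ z) (hno : ∀ p, ¬ Run z p L) (k : ℕ) :
    ((B * η ^ L) * (ρ * η) ^ 4)⁻¹ * (ρ * η) ^ k * ((z 0).1 : ℝ) ≤ ((z k).1 : ℝ) := by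
  have hB' : (1 : ℝ) ≤ B := by exact_mod_cast hB
  have hM0 : (0 : ℝ) < ((z 0).1 : ℝ) := by exact_mod_cast hz.pos 0
  have hη0 : 0 < η := by linarith
  have hr1 : 1 ≤ ρ * η := by nlinarith
  have hηp : 1 ≤ η ^ L := one_le_pow₀ hη
  have hD : 1 ≤ B * η ^ L := by nlinarith
  have hmon : ∀ a b, a ≤ b → ((z a).1 : ℝ) ≤ ((z b).1 : ℝ) := by
    intro a b hab
    rcases hab.lt_or_eq with h | rfl
    · exact_mod_cast (hz.mono a b h).le
    · exact le_rfl
  rw [mul_assoc, inv_mul_le_iff₀ (by positivity)]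
  rcases Nat.lt_or_ge k 2 with hk | hk
  · have h1 : (ρ * η) ^ k ≤ (ρ * η) ^ 4 := pow_le_pow_right₀ hr1 (by omega)
    have h2 := hmon 0 k (by omega)
    have h3 : (ρ * η) ^ k * ((z 0).1 : ℝ) ≤ (ρ * η) ^ 4 * ((z k).1 : ℝ) :=
      mul_le_mul h1 h2 hM0.le (by positivity)
    have h4 : (0 : ℝ) ≤ (ρ * η) ^ 4 * ((z k).1 : ℝ) := by
      have : (0 : ℝ) < ((z k).1 : ℝ) := by linarith
      positivity
    nlinarith
  · obtain ⟨j, rfl⟩ : ∃ j, k = j + 2 := ⟨k - 2, by omega⟩
    obtain ⟨p, h1, h2, S, hS, hI, i, q, hi, hq, hR, hv⟩ :=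
      chain_no hρ hρ1 hη hηL hL hN hfb hT hz hno j
    have h3 := bnd_sound (p := p) hT.hrn hT.htd hT.h1 hT.h2 hz hT.bd hT.bnd hS
    have h4 := hmon (p + 2) (j + 2) (by omega)
    have h5 : (ρ * η) ^ (j + 2) ≤ (ρ * η) ^ (p + 4) := pow_le_pow_right₀ hr1 (by omega)
    have hp0 : 0 ≤ pot ρ z p S := by
      have h3 : 0 ≤ pot ρ z p S * η ^ i := le_trans (by positivity) hv
      exact nonneg_of_mul_nonneg_left h3 (by positivity)
    have h6 : η ^ i ≤ η ^ L := pow_le_pow_right₀ hη hi.le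
    calc (ρ * η) ^ (j + 2) * ((z 0).1 : ℝ) ≤ (ρ * η) ^ (p + 4) * ((z 0).1 : ℝ) :=
          mul_le_mul_of_nonneg_right h5 hM0.le
      _ = (ρ * η) ^ 4 * ((ρ * η) ^ p * ((z 0).1 : ℝ)) := by rw [pow_add]; ring
      _ ≤ (ρ * η) ^ 4 * (pot ρ z p S * η ^ i) := mul_le_mul_of_nonneg_left hv (by positivity)
      _ ≤ (ρ * η) ^ 4 * (pot ρ z p S * η ^ L) :=
          mul_le_mul_of_nonneg_left (mul_le_mul_of_nonneg_left h6 hp0) (by positivity)
      _ ≤ (ρ * η) ^ 4 * (B * ((z (p + 2)).1 : ℝ) * η ^ L) :=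
          mul_le_mul_of_nonneg_left (mul_le_mul_of_nonneg_right h3 (by positivity)) (by positivity)
      _ ≤ (ρ * η) ^ 4 * (B * ((z (j + 2)).1 : ℝ) * η ^ L) :=
          mul_le_mul_of_nonneg_left (mul_le_mul_of_nonneg_right
            (mul_le_mul_of_nonneg_left h4 (by positivity)) (by positivity)) (by positivity)
      _ = _ := by ring

end

/-- The base of the table is larger than `ρ`. -/
lemma rho_lt_tab {ρ : ℝ} (hρ : ρ ^ 3 = ρ + 1) : ρ < 1.32472 := by
  by_contra hcon
  push Not at hcon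
  have h2 : 0 < ρ ^ 2 + ρ * 1.32472 + 1.32472 ^ 2 - 1 := by
    nlinarith [sq_nonneg (ρ + 1.32472 / 2)]
  nlinarith [mul_nonneg (sub_nonneg.mpr hcon) h2.le]

/-- The factor. -/
lemma exists_eta {ρ : ℝ} (hρ : ρ ^ 3 = ρ + 1) (hρ1 : 1 ≤ ρ) (L : ℕ) (hL : 1 ≤ L) :
    ∃ η : ℝ, 1 < η ∧ ((100000 : ℤ) : ℝ) * ρ * η ^ (3 * L) ≤ ((132472 : ℤ) : ℝ) := by
  have h1 := rho_lt_tab hρ
  have hρ0 : 0 < ρ := by linarith
  have h2 : 1 < 1.32472 / ρ := by rw [lt_div_iff₀ hρ0]; linarith
  have h0 : (3 * L : ℕ) ≠ 0 := by omega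
  refine ⟨(1.32472 / ρ) ^ (((3 * L : ℕ) : ℝ)⁻¹), ?_, ?_⟩
  · apply Real.one_lt_rpow h2
    have : (0 : ℝ) < ((3 * L : ℕ) : ℝ) := by exact_mod_cast Nat.pos_of_ne_zero h0
    positivity
  · rw [Real.rpow_inv_natCast_pow (by linarith) h0]
    push_cast
    have : 100000 * ρ * (1.32472 / ρ) = 132472 := by field_simp; norm_num
    linarith

end Pool.Agent.Work.MP_7453a1_ch
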