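import Pool.Agent.Work.MP_7453a1_ch.UpA
import Pool.Agent.Work.MP_7453a1_ch.UpB

set_option autoImplicit false

/-! # Norms which decrease under a linear map `T` with `T³ = T + 1` (helper85) -/

namespace Pool.Agent.Work.MP_7453a1_ch

open Finset Real
open Pool.GI
open Pool.Agent.Work.MP_7453a1_nt (rho_bounds rho_sq_bounds)
open Pool.Agent.Work.MP_7453a1_nt_norm (IsNorm)
open Pool.Agent.Work.MP_7453a1_nt_two (Admissible G g col adm12 G12_le)

/-- the quadratic equation of `T` -/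
theorem quad_of_lt {ρ : ℝ} (hρ : ρ ^ 3 = ρ + 1) {N : Seminorm ℝ V} (hN : IsNorm N) (T : V →ₗ[ℝ] V)
    (hT : ∀ x, T (T (T x)) = T x + x) {θ : ℝ} (hθ : θ < ρ) (h : ∀ x, N (T x) ≤ θ * N x) (x : V) :
    T (T x) = -(ρ • T x) - (ρ ^ 2 - 1) • x := by
  obtain ⟨r1, r2⟩ := rho_bounds hρ
  set y : V := T (T x) + ρ • T x + (ρ ^ 2 - 1) • x with hy
  have h1 : T y = ρ • y := by
    rw [hy, map_add, map_add, map_smul, map_smul, hT]
    have e : (ρ * (ρ ^ 2 - 1)) = 1 := by linear_combination hρ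
    have e1 : ρ • (T (T x) + ρ • T x + (ρ ^ 2 - 1) • x) = ρ • T (T x) + (ρ ^ 2) • T x + (ρ * (ρ ^ 2 - 1)) • x := by
      module
    rw [e1, e]
    module
  have h2 := h y
  rw [h1, map_smul_eq_mul, Real.norm_eq_abs, abs_of_pos (by linarith)] at h2
  have h3 : 0 ≤ N y := apply_nonneg N y
  have h4 : N y = 0 := by nlinarith
  have h5 := hN y h4
  rw [hy] at h5
  have h6 : T (T x) = (T (T x) + ρ • T x + (ρ ^ 2 - 1) • x) - ρ • T x - (ρ ^ 2 - 1) • x := by module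
  rw [h6, h5]
  module

/-- the complex structure of `T` -/
theorem exists_structure {ρ : ℝ} (hρ : ρ ^ 3 = ρ + 1) (T : V →ₗ[ℝ] V)
    (hT : ∀ x, T (T x) = -(ρ • T x) - (ρ ^ 2 - 1) • x) :
    ∃ A : V ≃ₗ[ℝ] ℂ, ∀ x, A (T x) = lam ρ * A x := by
  obtain ⟨t0, t1⟩ := LMB_s hρ
  have hre : (lam ρ).re = -ρ / 2 := rfl
  have him : (lam ρ).im = √(3 * ρ ^ 2 - 4) / 2 := rfl
  obtain ⟨s, hs⟩ : ∃ s : ℝ, s = √(3 * ρ ^ 2 - 4) / 2 := ⟨_, rfl⟩
  have hs0 : 0 < s := by rw [hs]; linarith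
  have hs2 : s * s = (3 * ρ ^ 2 - 4) / 4 := by rw [hs]; linarith
  rw [← hs] at him
  obtain ⟨e, he⟩ : ∃ e : V, e = ![1, 0] := ⟨_, rfl⟩
  have he0 : e ≠ 0 := by
    rw [he]
    intro h
    have := congrFun h 0
    simp at this
  obtain ⟨g, hg⟩ : ∃ g : V, g = s⁻¹ • (T e + (ρ / 2) • e) := ⟨_, rfl⟩
  have hTe : T e = s • g - (ρ / 2) • e := by
    rw [hg, smul_smul, mul_inv_cancel₀ hs0.ne']
    module
  have hTg : T g = -(ρ / 2) • g - s • e := by
    have h1 : T g = s⁻¹ • (T (T e) + (ρ / 2) • T e) := by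
      rw [hg, map_smul, map_add, map_smul]
    have h2 : T (T e) + (ρ / 2) • T e = -(ρ / 2) • T e - (ρ ^ 2 - 1) • e := by
      rw [hT]
      module
    have h3 : -(ρ / 2) • T e - (ρ ^ 2 - 1) • e = s • (-(ρ / 2) • g) - ((3 * ρ ^ 2 - 4) / 4) • e := by
      rw [hTe]
      module
    have h4 : s⁻¹ • (s • (-(ρ / 2) • g) - (s * s) • e) = (s⁻¹ * s) • (-(ρ / 2) • g) - (s⁻¹ * s * s) • e := by
      module
    rw [h1, h2, h3, ← hs2, h4, inv_mul_cancel₀ hs0.ne', one_smul, one_mul]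
  let B : ℂ →ₗ[ℝ] V :=
    { toFun := fun ζ => ζ.re • e + ζ.im • g
      map_add' := fun x y => by simp only [Complex.add_re, Complex.add_im]; module
      map_smul' := fun c x => by
        simp only [Complex.real_smul, Complex.re_ofReal_mul, Complex.im_ofReal_mul, RingHom.id_apply]
        module }
  have hB : ∀ ζ : ℂ, B ζ = ζ.re • e + ζ.im • g := fun ζ => rfl
  have hBT : ∀ ζ : ℂ, B (lam ρ * ζ) = T (B ζ) := by
    intro ζ
    rw [hB, hB, map_add, map_smul, map_smul, hTe, hTg, Complex.mul_re, Complex.mul_im, hre, him]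
    module
  have hinj : Function.Injective B := by
    rw [← LinearMap.ker_eq_bot, LinearMap.ker_eq_bot']
    intro ζ hζ
    by_contra hne
    have h1 : B (lam ρ * ζ) = 0 := by rw [hBT, hζ, map_zero]
    have h2 : ∀ a b : ℝ, B ((a + b * lam ρ) * ζ) = 0 := by
      intro a b
      have e1 : ((a : ℂ) + b * lam ρ) * ζ = a • ζ + b • (lam ρ * ζ) := by
        simp only [Complex.real_smul]
        ring
      rw [e1, map_add, map_smul, map_smul, hζ, h1, smul_zero, smul_zero, add_zero]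
    have h3 := h2 ((ζ⁻¹).re + ρ / 2 * ((ζ⁻¹).im / s)) ((ζ⁻¹).im / s)
    have h4 : (((ζ⁻¹).re + ρ / 2 * ((ζ⁻¹).im / s) : ℝ) : ℂ) + (((ζ⁻¹).im / s : ℝ) : ℂ) * lam ρ = ζ⁻¹ := by
      apply Complex.ext
      · rw [Complex.add_re, Complex.re_ofReal_mul, Complex.ofReal_re, hre]
        ring
      · rw [Complex.add_im, Complex.im_ofReal_mul, Complex.ofReal_im, him]
        field_simp
        ring
    rw [h4, inv_mul_cancel₀ hne, hB] at h3
    simp only [Complex.one_re, Complex.one_im, one_smul, zero_smul, add_zero] at h3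
    exact he0 h3
  let E : ℂ ≃ₗ[ℝ] V := LinearEquiv.ofInjectiveOfFinrankEq B hinj (by
    rw [Complex.finrank_real_complex]
    simp)
  have hE : ∀ ζ, E ζ = B ζ := fun ζ => rfl
  refine ⟨E.symm, fun x => ?_⟩
  apply E.injective
  rw [LinearEquiv.apply_symm_apply, hE, hBT, ← hE, LinearEquiv.apply_symm_apply]

/-- the structure scaled to the norm: the unit disk touches the unit circle of the norm -/
theorem exists_touch {ρ : ℝ} {N : Seminorm ℝ V} (hN : IsNorm N) (T : V →ₗ[ℝ] V) (A : V ≃ₗ[ℝ] ℂ)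
    (hA : ∀ x, A (T x) = lam ρ * A x) :
    ∃ (A' : V ≃ₗ[ℝ] ℂ) (n : Seminorm ℝ ℂ), (∀ x, A' (T x) = lam ρ * A' x) ∧ (∀ z, N z = n (A' z)) ∧
      (∀ ζ, n ζ = N (A'.symm ζ)) ∧ (∀ ζ, n ζ ≤ ‖ζ‖) ∧ ∃ u, ‖u‖ = 1 ∧ n u = 1 := by
  obtain ⟨C, hC⟩ : ∃ C : ℝ, C = N (A.symm 1) + N (A.symm Complex.I) := ⟨_, rfl⟩
  have hC0 : 0 ≤ C := by rw [hC]; exact add_nonneg (apply_nonneg N _) (apply_nonneg N _)
  have hle : ∀ ζ : ℂ, push N A ζ ≤ C * ‖ζ‖ := by
    intro ζ
    have h1 : ζ = ζ.re • (1 : ℂ) + ζ.im • Complex.I := by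
      apply Complex.ext <;> simp
    have h2 : push N A ζ ≤ |ζ.re| * N (A.symm 1) + |ζ.im| * N (A.symm Complex.I) := by
      rw [push_apply]
      conv_lhs => rw [h1, map_add, map_smul, map_smul]
      refine (map_add_le_add N _ _).trans ?_
      rw [map_smul_eq_mul, map_smul_eq_mul, Real.norm_eq_abs, Real.norm_eq_abs]
    have h3 := Complex.abs_re_le_norm ζ
    have h4 := Complex.abs_im_le_norm ζ
    have h5 : 0 ≤ N (A.symm 1) := apply_nonneg N _
    have h6 : 0 ≤ N (A.symm Complex.I) := apply_nonneg N _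
    rw [hC]
    nlinarith
  have hcont : Continuous (push N A) := by
    have h1 : LipschitzWith ⟨C, hC0⟩ (push N A) := by
      apply LipschitzWith.of_dist_le_mul
      intro x y
      rw [Real.dist_eq, dist_eq_norm]
      exact (abs_sub_map_le_sub (push N A) x y).trans (hle _)
    exact h1.continuous
  obtain ⟨u, hu, hmax⟩ := (isCompact_sphere (0 : ℂ) 1).exists_isMaxOn
    ⟨1, by simp⟩ hcont.continuousOn
  have hu1 : ‖u‖ = 1 := by simpa using hu
  have hu0 : u ≠ 0 := by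
    intro h
    rw [h, norm_zero] at hu1
    exact zero_ne_one hu1
  obtain ⟨m, hm⟩ : ∃ m : ℝ, m = push N A u := ⟨_, rfl⟩
  have hm0 : 0 < m := by
    rw [hm]
    rcases (apply_nonneg (push N A) u).eq_or_lt with h | h
    · exfalso
      have h1 := hN _ h.symm
      have h2 : A.symm u = 0 := h1
      exact hu0 ((LinearEquiv.map_eq_zero_iff A.symm).mp h2)
    · exact h
  have hmax' : ∀ ζ : ℂ, push N A ζ ≤ m * ‖ζ‖ := by
    intro ζ
    by_cases h0 : ζ = 0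
    · rw [h0, map_zero, norm_zero, mul_zero]
    · have h1 : 0 < ‖ζ‖ := norm_pos_iff.mpr h0
      have h2 : push N A ((‖ζ‖⁻¹ : ℝ) • ζ) ≤ m := by
        rw [hm]
        refine hmax ?_
        rw [mem_sphere_zero_iff_norm, norm_smul, norm_inv, norm_norm, inv_mul_cancel₀ h1.ne']
      rw [map_smul_eq_mul, norm_inv, norm_norm, inv_mul_le_iff₀ h1] at h2
      linarith
  obtain ⟨A', hA'⟩ : ∃ A' : V ≃ₗ[ℝ] ℂ, ∀ x, A' x = m • A x :=
    ⟨A.trans (LinearEquiv.smulOfNeZero ℝ ℂ m hm0.ne'), fun x => rfl⟩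
  have hA2 : ∀ ζ, A'.symm ζ = m⁻¹ • A.symm ζ := by
    intro ζ
    apply A'.injective
    rw [LinearEquiv.apply_symm_apply, hA', map_smul, LinearEquiv.apply_symm_apply, smul_smul,
      mul_inv_cancel₀ hm0.ne', one_smul]
  have hn : ∀ ζ, push N A' ζ = m⁻¹ * push N A ζ := by
    intro ζ
    rw [push_apply, push_apply, hA2, map_smul_eq_mul, Real.norm_eq_abs, abs_of_pos (inv_pos.mpr hm0)]
  refine ⟨A', push N A', fun x => ?_, fun z => ?_, fun ζ => rfl, fun ζ => ?_, u, hu1, ?_⟩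
  · rw [hA', hA', hA, mul_smul_comm]
  · rw [push_apply, LinearEquiv.symm_apply_apply]
  · rw [hn, inv_mul_le_iff₀ hm0]
    exact hmax' ζ
  · rw [hn, ← hm, inv_mul_cancel₀ hm0.ne']

/-- the two upper bounds from the density of the records -/
theorem up_of_tw {ρ : ℝ} (hρ : ρ ^ 3 = ρ + 1) {N : Seminorm ℝ V} (hN : IsNorm N) (A : V ≃ₗ[ℝ] ℂ)
    (n : Seminorm ℝ ℂ) (hA : ∀ z, N z = n (A z)) (h2 : Tw n) (hdec : ∀ ζ, n (lam ρ * ζ) ≤ n ζ) {s : ℝ}
    (hs : 1 ≤ s) (hc : Cnt n ρ s) : Up ρ s N := by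
  have hρ0 : 0 < ρ := by
    have := (rho_bounds hρ).1
    linarith
  have hCHN := chn hρ n h2 hdec
  intro N₁ hN₁
  refine ⟨?_, upb hρ N A n hN hA h2 hCHN s hs hc N₁ hN₁⟩
  obtain ⟨Θ', h3, h4⟩ := upa hρ N A n hN hA h2 hCHN s hs hc
  have hcol : col (fun i _ => Θ' i) = Θ' := rfl
  have hadm : Admissible (fun (i : Fin 2) (_ : Fin 1) => Θ' i) := adm12.mpr (by rw [hcol]; exact h3)
  exact ⟨fun i _ => Θ' i, hadm, G12_le hN hN₁ hadm (Real.rpow_pos_of_pos hρ0 s) (by rw [hcol]; exact h4)⟩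

/-- the exact upper bound for the norms which decrease under a linear map `T` with `T³ = T + 1` -/
theorem up_of_dec {ρ : ℝ} (hρ : ρ ^ 3 = ρ + 1) {N : Seminorm ℝ V} (hN : IsNorm N) (T : V →ₗ[ℝ] V)
    (hT : ∀ x, T (T (T x)) = T x + x) {θ : ℝ} (hθ : θ < 1) (h : ∀ x, N (T x) ≤ θ * N x) : Up ρ 1 N := by
  obtain ⟨r1, r2⟩ := rho_bounds hρ
  obtain ⟨A, hA⟩ := exists_structure hρ T (quad_of_lt hρ hN T hT (by linarith) h)
  obtain ⟨A', n, h1, h2, h3, h4, u, h5, h6⟩ := exists_touch hN T A hA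
  have hdec : ∀ ζ, n (lam ρ * ζ) ≤ max θ (1 / 2) * n ζ := by
    intro ζ
    have h7 : A'.symm (lam ρ * ζ) = T (A'.symm ζ) := by
      apply A'.injective
      rw [LinearEquiv.apply_symm_apply, h1, LinearEquiv.apply_symm_apply]
    rw [h3, h3, h7]
    exact (h _).trans (mul_le_mul_of_nonneg_right (le_max_left _ _) (apply_nonneg N _))
  have hm1 : max θ (1 / 2) < 1 := max_lt hθ (by norm_num)
  have hm0 : 0 < max θ (1 / 2) := lt_max_of_lt_right (by norm_num)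
  have hdec1 : ∀ ζ, n (lam ρ * ζ) ≤ n ζ := by
    intro ζ
    have := hdec ζ
    nlinarith [apply_nonneg n ζ]
  exact up_of_tw hρ hN A' n h2 (tw_of_touch hρ n h4 hdec1 u h5 h6) hdec1 le_rfl
    (q_CT1 ρ hρ n _ hm0 hm1 hdec)

end Pool.Agent.Work.MP_7453a1_ch
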