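import Pool.Agent.Work.MP_7453a1_ch.Chn

set_option autoImplicit false

/-! # The growth of the best approximations for `m = 1`, norms with `n (lam ζ) ≤ n ζ` (helper85; after `B_UPA`) -/

namespace Pool.Agent.Work.MP_7453a1_ch

open Pool.GI
open Pool.Agent.Work.MP_7453a1_nt_norm (IsNorm Admissible G M err IsBest IsBestDenominator)
open Pool.Agent.Work.MP_7453a1_nt_sym (Sym)
open Pool.Agent.Work.MP_7453a1_nt_sym.UPAux (Par Lam E LL E_U E_iter E_one E_neg E_low exists_iter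
  zv_iter LL_iter LL_zv params tr qq pq tr_qq tr_inj tr_neg tr_zero G_le_of_chain exists_par)
open Pool.Agent.Work.MP_7453a1_nt (L Q Nf U zv L_mul_Q Nf_eq_zero rho_bounds rho_sq_bounds Q_sq)

/-- UPA for a norm with the conclusion of the chain lemma -/
theorem upa {ρ : ℝ} (hρ : ρ ^ 3 = ρ + 1) (N : Seminorm ℝ V) (A : V ≃ₗ[ℝ] ℂ) (n : Seminorm ℝ ℂ)
    (hN : IsNorm N) (hNA : ∀ z, N z = n (A z)) (hTwo : Tw n)
    (hCHN : ∀ δ : ℝ, 0 < δ → δ ≤ 1 / 100 → ∀ ζ : ℂ, ζ ≠ 0 → Good n ρ δ ζ → ∀ v : ℤ × ℤ × ℤ,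
      |LL ρ v| ≤ 1.02 → n (ζ * Ec ρ v) ≤ (1 + δ / 2) * n ζ → v = 0 ∨ v = (1, 0, 0) ∨ v = -(1, 0, 0))
    (s : ℝ) (hs : 1 ≤ s) (hCnt : Cnt n ρ s) :
    ∃ Θ : V, Admissible Θ ∧ G N Θ ≤ ENNReal.ofReal (ρ ^ s) := by
  have hLMB := q_LMB
  have hSYM := q_SYM
  obtain ⟨δ, hδ0, hδ1, hOrb, -⟩ := hCnt
  obtain ⟨a, c, P⟩ := exists_par hρ
  obtain ⟨l1, l2, l3, -, -, -, -, -⟩ := hLMB ρ hρ
  obtain ⟨R, hS, hA1, hA2⟩ := hSYM ρ a c P A
  obtain ⟨r1, r2⟩ := rho_bounds hρ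
  obtain ⟨s1, s2⟩ := rho_sq_bounds hρ
  have hρ0 : 0 < ρ := by linarith
  obtain ⟨cl, hcl, hlow⟩ := Pool.Agent.Work.MP_7453a1_nt_norm.lower hN
  set d : ℝ := δ / 100 with hd
  have hd0 : 0 < d := by rw [hd]; positivity
  have hd1 : d ≤ 0.0001 := by rw [hd]; linarith
  have hδd : δ = 100 * d := by rw [hd]; ring
  obtain ⟨K, m, n', w, κ, hu, hv, hκ'⟩ := params hS P (ε := cl * d) (by positivity)
  have hκ : N κ ≤ cl * d := by
    rw [hNA]
    exact (hTwo _).1.trans hκ'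
  set f1 : V := ![1, 0] with hf1
  set f2 : V := ![0, 1] with hf2
  have hw : w ≠ 0 := by
    rintro rfl
    have : E R ρ a c 0 (1, K, 0) = 0 := by
      unfold E Lam; simp
    rw [this] at hv
    have := congrFun hv 1
    simp [hf2] at this
  set τ : ℝ := ρ ^ 2 - n' * ρ - K + K * m * ρ with hτ
  have hτ0 : τ ≠ 0 := by
    intro h0
    have h1 := L_mul_Q hρ (-K) (m * K - n') 1
    have h2 : L ρ (-K) (m * K - n') 1 = 0 := by
      rw [← h0, hτ]; unfold L; push_cast; ring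
    rw [h2, zero_mul] at h1
    have h3 : Nf (-K) (m * K - n') 1 = 0 := by exact_mod_cast h1.symm
    have := (Nf_eq_zero _ _ _ h3).2.2
    omega
  set Θ : V := ![ρ / τ, (1 - m * ρ) / τ] with hΘ
  set Lu : ℝ := LL ρ (m, n', 1) with hLu
  set Lv : ℝ := LL ρ (1, K, 0) with hLv
  -- the error vector
  have hE : ∀ (q : ℤ) (p : Fin 2 → ℤ), E R ρ a c w (tr K m n' q p)
      = -((fun i => (q : ℝ) * Θ i - p i) + ((q : ℝ) * Θ 0 - p 0) • κ) := by
    intro q p
    have h1 : τ • Lam R a c w = -(ρ • (f1 + κ) + (1 - m * ρ) • f2) := by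
      rw [← hu, ← hv, hτ]
      unfold E
      simp only
      push_cast
      match_scalars
      · ring
      · linear_combination -hρ
    have h2 : Lam R a c w = -((ρ / τ) • (f1 + κ) + ((1 - m * ρ) / τ) • f2) := by
      have h3 : Lam R a c w = τ⁻¹ • (τ • Lam R a c w) := by
        rw [smul_smul, inv_mul_cancel₀ hτ0, one_smul]
      rw [h3, h1, div_eq_inv_mul, div_eq_inv_mul]
      module
    have h4 : (fun i => (q : ℝ) * Θ i - p i) = ((q : ℝ) * Θ 0 - p 0) • f1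
        + ((q : ℝ) * Θ 1 - p 1) • f2 := by
      ext i
      fin_cases i <;> simp [hf1, hf2]
    have h5 : E R ρ a c w (tr K m n' q p) = (p 0 : ℝ) • (f1 + κ) + (p 1 : ℝ) • f2
        + (q : ℝ) • Lam R a c w := by
      rw [← hu, ← hv]
      unfold E tr
      simp only
      push_cast
      module
    have h6 : Θ 0 = ρ / τ := rfl
    have h7 : Θ 1 = (1 - m * ρ) / τ := rfl
    rw [h5, h2, h4, h6, h7]
    module
  have hcoord : ∀ (q : ℤ) (p : Fin 2 → ℤ) (i : Fin 2),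
      cl * |(q : ℝ) * Θ i - p i| ≤ err N Θ q p := by
    intro q p i
    refine le_trans (mul_le_mul_of_nonneg_left ?_ hcl.le) (hlow _)
    rw [← Real.norm_eq_abs]
    exact norm_le_pi_norm (fun i => (q : ℝ) * Θ i - p i) i
  have herr0 : ∀ (q : ℤ) (p : Fin 2 → ℤ), 0 ≤ err N Θ q p := fun q p => apply_nonneg N _
  have hκe : ∀ (q : ℤ) (p : Fin 2 → ℤ), N (((q : ℝ) * Θ 0 - p 0) • κ) ≤ d * err N Θ q p := by
    intro q p
    rw [map_smul_eq_mul, Real.norm_eq_abs]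
    have h1 := hcoord q p 0
    have h2 : 0 ≤ |(q : ℝ) * Θ 0 - p 0| := abs_nonneg _
    calc |(q : ℝ) * Θ 0 - p 0| * N κ ≤ |(q : ℝ) * Θ 0 - p 0| * (cl * d) :=
          mul_le_mul_of_nonneg_left hκ h2
      _ = d * (cl * |(q : ℝ) * Θ 0 - p 0|) := by ring
      _ ≤ _ := mul_le_mul_of_nonneg_left h1 hd0.le
  have hup : ∀ (q : ℤ) (p : Fin 2 → ℤ),
      N (E R ρ a c w (tr K m n' q p)) ≤ (1 + d) * err N Θ q p := by
    intro q p
    rw [hE, map_neg_eq_map]
    refine (map_add_le_add N _ _).trans ?_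
    have h1 := hκe q p
    have h2 : N (fun i => (q : ℝ) * Θ i - p i) = err N Θ q p := rfl
    rw [h2]; linarith
  have hdn : ∀ (q : ℤ) (p : Fin 2 → ℤ),
      (1 - d) * err N Θ q p ≤ N (E R ρ a c w (tr K m n' q p)) := by
    intro q p
    rw [hE, map_neg_eq_map]
    have h1 := hκe q p
    have h2 : N (fun i => (q : ℝ) * Θ i - p i) = err N Θ q p := rfl
    have h3 := map_sub_le_add N ((fun i => (q : ℝ) * Θ i - p i) + ((q : ℝ) * Θ 0 - p 0) • κ)
      (((q : ℝ) * Θ 0 - p 0) • κ)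
    rw [add_sub_cancel_right, h2] at h3
    linarith
  -- the linear form
  have hLL : ∀ (q : ℤ) (p : Fin 2 → ℤ), τ * LL ρ (tr K m n' q p) = (3 + 2 * ρ) * q
      - τ * (((q : ℝ) * Θ 0 - p 0) * Lu + ((q : ℝ) * Θ 1 - p 1) * Lv) := by
    intro q p
    have h6 : τ * ((q : ℝ) * Θ 0 - p 0) = q * ρ - τ * p 0 := by
      have : Θ 0 = ρ / τ := rfl
      rw [this]; field_simp
    have h7 : τ * ((q : ℝ) * Θ 1 - p 1) = q * (1 - m * ρ) - τ * p 1 := by
      have : Θ 1 = (1 - m * ρ) / τ := rfl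
      rw [this]; field_simp
    have h8 : τ * (((q : ℝ) * Θ 0 - p 0) * Lu + ((q : ℝ) * Θ 1 - p 1) * Lv)
        = (q * ρ - τ * p 0) * Lu + (q * (1 - m * ρ) - τ * p 1) * Lv := by
      rw [← h6, ← h7]; ring
    rw [h8, hLu, hLv, hτ]
    unfold LL L tr
    simp only
    push_cast
    linear_combination (2 * (q : ℝ)) * hρ
  set B : ℝ := (|Lu| + |Lv|) / cl with hB
  have hB0 : 0 ≤ B := by rw [hB]; positivity
  set A₀ : ℝ := (3 + 2 * ρ) / |τ| with hA
  have hA0 : 0 < A₀ := by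
    have : 0 < |τ| := abs_pos.mpr hτ0
    rw [hA]; positivity
  have hrest : ∀ (q : ℤ) (p : Fin 2 → ℤ),
      |((q : ℝ) * Θ 0 - p 0) * Lu + ((q : ℝ) * Θ 1 - p 1) * Lv| ≤ B * err N Θ q p := by
    intro q p
    have h1 := hcoord q p 0
    have h2 := hcoord q p 1
    have h3 : B * err N Θ q p = (|Lu| * err N Θ q p + |Lv| * err N Θ q p) / cl := by
      rw [hB]; ring
    rw [h3, le_div_iff₀ hcl]
    calc |((q : ℝ) * Θ 0 - p 0) * Lu + ((q : ℝ) * Θ 1 - p 1) * Lv| * cl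
        ≤ (|((q : ℝ) * Θ 0 - p 0) * Lu| + |((q : ℝ) * Θ 1 - p 1) * Lv|) * cl :=
          mul_le_mul_of_nonneg_right (abs_add_le _ _) hcl.le
      _ = |Lu| * (cl * |(q : ℝ) * Θ 0 - p 0|) + |Lv| * (cl * |(q : ℝ) * Θ 1 - p 1|) := by
          rw [abs_mul, abs_mul]; ring
      _ ≤ _ := add_le_add (mul_le_mul_of_nonneg_left h1 (abs_nonneg _))
          (mul_le_mul_of_nonneg_left h2 (abs_nonneg _))
  have hAq : ∀ (q : ℤ) (p : Fin 2 → ℤ), LL ρ (tr K m n' q p) + (((q : ℝ) * Θ 0 - p 0) * Lu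
      + ((q : ℝ) * Θ 1 - p 1) * Lv) = (3 + 2 * ρ) * q / τ := by
    intro q p
    rw [eq_div_iff hτ0]
    linear_combination hLL q p
  have hAq' : ∀ q : ℤ, |(3 + 2 * ρ) * q / τ| = A₀ * |(q : ℝ)| := by
    intro q
    rw [abs_div, abs_mul, abs_of_pos (by linarith : 0 < 3 + 2 * ρ), hA]
    ring
  have hL1 : ∀ (q : ℤ) (p : Fin 2 → ℤ),
      |LL ρ (tr K m n' q p)| ≤ A₀ * |(q : ℝ)| + B * err N Θ q p := by
    intro q p
    have h1 := hAq q p
    have h2 : LL ρ (tr K m n' q p) = (3 + 2 * ρ) * q / τ - (((q : ℝ) * Θ 0 - p 0) * Lu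
      + ((q : ℝ) * Θ 1 - p 1) * Lv) := by linarith
    rw [h2]
    refine (abs_sub _ _).trans ?_
    rw [hAq']
    linarith [hrest q p]
  have hL2 : ∀ (q : ℤ) (p : Fin 2 → ℤ),
      A₀ * |(q : ℝ)| ≤ |LL ρ (tr K m n' q p)| + B * err N Θ q p := by
    intro q p
    rw [← hAq', ← hAq q p]
    refine (abs_add_le _ _).trans ?_
    linarith [hrest q p]
  set ζ₀ : ℂ := A w with hζ₀
  have hζ0 : ζ₀ ≠ 0 := by
    intro h0
    exact hw (A.injective (by rw [map_zero]; exact h0))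
  have hNAw : NA A w = ‖ζ₀‖ := rfl
  have hw0 : 0 < NA A w := by rw [hNAw]; exact norm_pos_iff.2 hζ0
  -- admissibility
  have hadm : Admissible Θ := by
    intro q hq p
    by_contra hcon
    push Not at hcon
    have h1 : (fun i => (q : ℝ) * Θ i - p i) = 0 := by
      ext i; simp [hcon i]
    have h2 := hE q p
    rw [h1, hcon 0, sub_self, zero_smul, add_zero, neg_zero] at h2
    have h3 := E_low hS P w (tr K m n' q p)
    rw [h2, map_zero] at h3
    set v := tr K m n' q p with hvdef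
    have h4 : Q ρ v.1 v.2.1 v.2.2 ≤ 0 := by
      by_contra hpos
      push Not at hpos
      have : 0 < 3 / 4 * Q ρ v.1 v.2.1 v.2.2 * NA A w ^ 2 := by positivity
      simp at h3
      linarith
    have h5 : 0 ≤ Q ρ v.1 v.2.1 v.2.2 := by
      have := Q_sq hρ v.1 v.2.1 v.2.2
      have h6 : 0 ≤ (3 * ρ ^ 2 - 4) * ((v.2.1 : ℝ) - ρ * v.2.2) ^ 2 :=
        mul_nonneg (by linarith) (sq_nonneg _)
      nlinarith [sq_nonneg (2 * (v.1 : ℝ) - ρ * v.2.1 + (2 - ρ ^ 2) * v.2.2)]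
    have h6 := L_mul_Q hρ v.1 v.2.1 v.2.2
    rw [le_antisymm h4 h5, mul_zero] at h6
    have h7 : Nf v.1 v.2.1 v.2.2 = 0 := by exact_mod_cast h6.symm
    obtain ⟨x0, x1, x2⟩ := Nf_eq_zero _ _ _ h7
    have h8 : tr K m n' q p = tr K m n' 0 0 := by
      rw [tr_zero]
      exact Prod.ext x0 (Prod.ext x1 x2)
    exact hq (tr_inj h8).1
  have hlam1 : ‖lam ρ‖ ≤ 1 := by
    have h1 : 1 / ρ ≤ 1 := by
      rw [div_le_one hρ0]
      linarith
    rw [← l3] at h1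
    nlinarith [norm_nonneg (lam ρ)]
  -- the chain
  obtain ⟨k0, hk0⟩ := pow_unbounded_of_one_lt (400 * B * ‖ζ₀‖) (by linarith : 1 < ρ)
  have hk : ∀ k, k0 ≤ k → 400 * B * ‖ζ₀‖ < ρ ^ k := fun k hk =>
    hk0.trans_le (pow_le_pow_right₀ (by linarith) hk)
  set qk : ℕ → ℤ := fun k => qq K m n' (zv k) with hqk
  set pk : ℕ → Fin 2 → ℤ := fun k => pq m (zv k) with hpk
  have htr : ∀ k, tr K m n' (qk k) (pk k) = zv k := fun k => tr_qq K m n' _
  have hyk : ∀ k, E R ρ a c w (zv k) = (Lam R a c)^[k] w := by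
    intro k
    rw [zv_iter, E_iter hS P, E_one]
  have hNk : ∀ k, N (E R ρ a c w (zv k)) = n (lam ρ ^ k * ζ₀) := by
    intro k
    rw [hNA, hyk, UPA_pow hA1]
  have herrk : ∀ k, err N Θ (qk k) (pk k) ≤ 2 * ‖ζ₀‖ := by
    intro k
    have h1 := hdn (qk k) (pk k)
    rw [htr, hNk] at h1
    have h2 : n (lam ρ ^ k * ζ₀) ≤ ‖ζ₀‖ := by
      refine (hTwo _).1.trans ?_
      rw [norm_mul, norm_pow]
      exact mul_le_of_le_one_left (norm_nonneg _) (pow_le_one₀ (norm_nonneg _) hlam1)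
    have h3 := herr0 (qk k) (pk k)
    have h4 : d * err N Θ (qk k) (pk k) ≤ 0.0001 * err N Θ (qk k) (pk k) :=
      mul_le_mul_of_nonneg_right hd1 h3
    linarith [norm_nonneg ζ₀]
  have hBk : ∀ k, k0 ≤ k → B * err N Θ (qk k) (pk k) ≤ 0.01 * ρ ^ k := by
    intro k hkk
    have h1 := mul_le_mul_of_nonneg_left (herrk k) hB0
    have h2 := hk k hkk
    linarith [mul_nonneg hB0 (norm_nonneg ζ₀)]
  have hbest : ∀ k, k0 ≤ k → Good n ρ δ (lam ρ ^ k * ζ₀) → IsBest N Θ (qk k) (pk k) := by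
    intro k hkk hgood
    have hpk0 : 0 < ρ ^ k := by positivity
    have hLk : |LL ρ (tr K m n' (qk k) (pk k))| = ρ ^ k := by
      rw [htr, LL_zv hρ, abs_of_pos hpk0]
    have hB1 := hBk k hkk
    refine ⟨?_, ?_⟩
    · intro h0
      have h1 := hL1 (qk k) (pk k)
      rw [hLk, h0] at h1
      simp only [Int.cast_zero, abs_zero, mul_zero, zero_add] at h1
      rw [h0] at hB1
      nlinarith
    · intro q' p' hq' he'
      have h1 := hL1 q' p'
      have h2 := hL2 (qk k) (pk k)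
      rw [hLk] at h2
      have h3 : A₀ * |(q' : ℝ)| ≤ A₀ * |(qk k : ℝ)| := by
        refine mul_le_mul_of_nonneg_left ?_ hA0.le
        exact_mod_cast hq'
      have h4 : B * err N Θ q' p' ≤ B * err N Θ (qk k) (pk k) := mul_le_mul_of_nonneg_left he' hB0
      have h5 : |LL ρ (tr K m n' q' p')| ≤ 1.02 * ρ ^ k := by linarith
      have h6 : N (E R ρ a c w (tr K m n' q' p')) ≤ (1 + δ / 2) * N (E R ρ a c w (zv k)) := by
        have h7 := hup q' p'
        have h8 := hdn (qk k) (pk k)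
        rw [htr] at h8
        have h9 := herr0 (qk k) (pk k)
        have h10 : (1 + d) * err N Θ q' p' ≤ (1 + d) * err N Θ (qk k) (pk k) :=
          mul_le_mul_of_nonneg_left he' (by linarith)
        have h11 : (1 + d) ≤ (1 + δ / 2) * (1 - d) := by
          rw [hδd]
          nlinarith
        have h12 := mul_le_mul_of_nonneg_right h11 h9
        have h13 := mul_le_mul_of_nonneg_left h8 (by linarith : (0 : ℝ) ≤ 1 + δ / 2)
        linarith
      obtain ⟨η, hη⟩ := exists_iter k (tr K m n' q' p')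
      have h7 : |LL ρ η| ≤ 1.02 := by
        rw [← hη, LL_iter hρ, abs_mul, abs_of_pos hpk0] at h5
        have : ρ ^ k * |LL ρ η| ≤ ρ ^ k * 1.02 := by linarith
        exact le_of_mul_le_mul_left this hpk0
      have h8 : n (lam ρ ^ k * ζ₀ * Ec ρ η) ≤ (1 + δ / 2) * n (lam ρ ^ k * ζ₀) := by
        rw [hNk, ← hη, E_iter hS P, hNA, hA2, UPA_pow hA1, mul_comm (Ec ρ η)] at h6
        exact h6
      have hne : lam ρ ^ k * ζ₀ ≠ 0 := mul_ne_zero (pow_ne_zero _ l2) hζ0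
      rcases hCHN δ hδ0 hδ1 _ hne hgood η h7 h8 with h9 | h9 | h9
      · left
        rw [h9, UPA_U0, ← tr_zero K m n'] at hη
        exact tr_inj hη.symm
      · right; left
        rw [h9, ← zv_iter, ← htr k] at hη
        exact tr_inj hη.symm
      · right; right
        rw [h9, UPA_Un, ← zv_iter, ← htr k, ← tr_neg] at hη
        exact tr_inj hη.symm
  -- the size of the denominators
  have hq1 : ∀ k, k0 ≤ k → 0.99 * ρ ^ k ≤ A₀ * |(qk k : ℝ)| ∧ A₀ * |(qk k : ℝ)| ≤ 1.01 * ρ ^ k := by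
    intro k hkk
    have h1 := hL1 (qk k) (pk k)
    have h2 := hL2 (qk k) (pk k)
    have h3 := hBk k hkk
    rw [htr, LL_zv hρ, abs_of_pos (by positivity : 0 < ρ ^ k)] at h1 h2
    constructor <;> linarith
  have hmono : ∀ k l, k0 ≤ k → k < l → |qk k| < |qk l| := by
    intro k l hkk hkl
    have h1 := (hq1 k hkk).2
    have h2 := (hq1 l (by omega)).1
    have h3 : ρ ^ (k + 1) ≤ ρ ^ l := pow_le_pow_right₀ (by linarith) hkl
    rw [pow_succ] at h3
    have h4 : 0 < ρ ^ k := by positivity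
    have h5 : A₀ * |(qk k : ℝ)| < A₀ * |(qk l : ℝ)| := by nlinarith
    have h6 := lt_of_mul_lt_mul_left h5 hA0.le
    exact_mod_cast h6
  classical
  set Pk : ℕ → Prop := fun k => k0 ≤ k ∧ Good n ρ δ (lam ρ ^ k * ζ₀) with hPk
  obtain ⟨C, hC⟩ := hOrb ζ₀ hζ0
  have hs0 : 0 < s := by linarith
  have hcount : ∀ K : ℕ, (K : ℝ) / s - C ≤ (Nat.count Pk K : ℝ) + k0 := by
    intro K
    obtain ⟨S, hS1, hS2, hS3⟩ := hC K
    have h1 := UPA_count Pk k0 K S hS1 fun k hk hk0 => ⟨hk0, hS2 k hk⟩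
    have h2 : (S.card : ℝ) ≤ (Nat.count Pk K : ℝ) + k0 := by exact_mod_cast h1
    exact hS3.trans h2
  have hinf : {k | Pk k}.Infinite := by
    intro hfin
    obtain ⟨M, hM⟩ := hfin.bddAbove
    obtain ⟨K', hK'⟩ := exists_nat_gt (s * (C + k0 + (M + 1 : ℕ)))
    have h1 := hcount K'
    have h2 : Nat.count Pk K' ≤ M + 1 := by
      rw [Nat.count_eq_card_filter_range]
      have h3 : (Finset.range K').filter Pk ⊆ Finset.range (M + 1) := by
        intro k hk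
        rw [Finset.mem_range]
        have := hM (Finset.mem_filter.1 hk).2
        omega
      have h4 := Finset.card_le_card h3
      rwa [Finset.card_range] at h4
    have h3 : (Nat.count Pk K' : ℝ) ≤ ((M + 1 : ℕ) : ℝ) := by exact_mod_cast h2
    have h4 : (K' : ℝ) / s ≤ C + k0 + (M + 1 : ℕ) := by linarith
    rw [div_le_iff₀ hs0] at h4
    linarith
  have hnth : ∀ j, Pk (Nat.nth Pk j) := fun j => Nat.nth_mem_of_infinite hinf j
  have hkj : ∀ j, (Nat.nth Pk j : ℝ) ≤ s * (j + (C + k0)) := by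
    intro j
    have h1 := hcount (Nat.nth Pk j)
    rw [Nat.count_nth_of_infinite hinf] at h1
    have h2 : (Nat.nth Pk j : ℝ) / s ≤ j + (C + k0) := by linarith
    rw [div_le_iff₀ hs0] at h2
    linarith
  refine ⟨Θ, hadm, ?_⟩
  have hρs : 0 < ρ ^ s := Real.rpow_pos_of_pos hρ0 s
  refine G_le_of_chain hN (C := 1.01 * ρ ^ (s * (C + k0)) / A₀) hρs
    (by have := Real.rpow_pos_of_pos hρ0 (s * (C + k0)); positivity)
    (fun j => (qk (Nat.nth Pk j)).natAbs) ?_ ?_ ?_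
  · refine strictMono_nat_of_lt_succ fun j => ?_
    have h0 : Nat.nth Pk j < Nat.nth Pk (j + 1) := (Nat.nth_lt_nth hinf).2 (Nat.lt_succ_self j)
    have h1 := hmono _ _ (hnth j).1 h0
    rw [Int.abs_eq_natAbs, Int.abs_eq_natAbs] at h1
    exact_mod_cast h1
  · intro j
    exact ⟨qk (Nat.nth Pk j), pk (Nat.nth Pk j), hbest _ (hnth j).1 (hnth j).2, rfl⟩
  · intro j
    have h1 := (hq1 _ (hnth j).1).2
    have h3 : (((qk (Nat.nth Pk j)).natAbs : ℕ) : ℝ) = |(qk (Nat.nth Pk j) : ℝ)| := by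
      rw [Nat.cast_natAbs, Int.cast_abs]
    rw [h3]
    have h4 : ρ ^ (Nat.nth Pk j) ≤ ρ ^ (s * (C + k0)) * (ρ ^ s) ^ j := by
      rw [← Real.rpow_natCast ρ (Nat.nth Pk j), ← Real.rpow_natCast (ρ ^ s) j,
        ← Real.rpow_mul hρ0.le, ← Real.rpow_add hρ0]
      refine Real.rpow_le_rpow_of_exponent_le (by linarith) ?_
      have := hkj j
      linarith
    have h5 : 1.01 * ρ ^ (s * (C + k0)) / A₀ * (ρ ^ s) ^ j =
        1.01 * (ρ ^ (s * (C + k0)) * (ρ ^ s) ^ j) / A₀ := by ring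
    rw [h5, le_div_iff₀ hA0]
    linarith

end Pool.Agent.Work.MP_7453a1_ch
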